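import Pool.Agent.J6H73.SB.Deg2
import Pool.Agent.N707.DR.VkG
import Pool.Agent.N490.FR.Ht
import Pool.Agent.N31.FR.Tot
import Pool.Agent.N130.PC.Cnt
import Pool.Agent.N751.LS.Core
import Pool.Agent.N751.LS.Pole

/-!
# The strong Lang-Silverman alternative at almost all points of degree `r` of all one-parameter
# families
-/

set_option autoImplicit false
set_option linter.unusedSectionVars false

namespace Pool.Agent.J6H73.SB

open NumberField IsDedekindDomain Module Polynomial Height Pool.Agent.N753.DR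
open Pool.Agent.N751.LS (StrongAt)

/-! ### the exceptional set -/

theorem core_holds : StmCore :=
  Pool.Agent.N97.DR.Core.t Pool.Agent.N147.DR.typ
    (Pool.Agent.N530.DR.t Pool.Agent.N147.DR.t Pool.Agent.N147.DR.typ) small
    Pool.Agent.N262.DR.places

theorem deg_holds : StmDeg :=
  Pool.Agent.N262.DR.deg core_holds Pool.Agent.N459.DR.t Pool.Agent.N572.DR.Link.t

theorem ke_holds : StmKE := Pool.Agent.N572.DR.KE.t Pool.Agent.N572.DR.Diag.t deg_holds

theorem vk_holds : StmVk := Pool.Agent.N415.DRVK.t ke_holds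

theorem vkg_holds : StmVkG := Pool.Agent.N707.DRVkG.t vk_holds

/-- the properties of the exceptional set used below -/
structure ExcSet (K : Type) [Field K] [NumberField K] (r : ℕ) (E : Set K[X]) : Prop where
  count : ∀ U : ℝ, 0 ≤ U → {p | p ∈ E ∧ AtH r U p}.Finite ∧
    ({p | p ∈ E ∧ AtH r U p}.ncard : ℝ) ≤ 3 * Real.exp ((r + 1) * U - √U)
  zeros : ∀ (S : Finset ℕ) (F : K[X]), F.Monic → Irreducible F →
    ∀ κ : ℝ, 0 < κ → ∃ C : ℝ, ∀ (M : Type) [Field M] [NumberField M] [Algebra K M] (x : M),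
      finrank K M = r → (minpoly K x).natDegree = r → minpoly K x ∉ E →
      ∀ W : Finset (HeightOneSpectrum (𝓞 M)), (∀ w, Near S F x w → w ∈ W) →
        ((mn r F : ℝ) - κ) * Height.logHeight₁ x ≤ ∑ w ∈ W, lN w + C
  poles : ∀ (S : Finset ℕ) (κ : ℝ), 0 < κ → ∃ C : ℝ, ∀ (M : Type) [Field M] [NumberField M]
    [Algebra K M] (x : M), finrank K M = r → (minpoly K x).natDegree = r → minpoly K x ∉ E →
      x ≠ 0 → ∀ W : Finset (HeightOneSpectrum (𝓞 M)),
        (∀ w, (∀ p ∈ S, p ≠ 0 → (p : 𝓞 M) ∉ w.asIdeal) → 1 < w.valuation M x → w ∈ W) →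
        (1 - κ) * Height.logHeight₁ x ≤ ∑ w ∈ W, lN w + C

theorem val_inv_lt {M : Type} [Field M] [NumberField M] {w : HeightOneSpectrum (𝓞 M)} {x : M}
    (hx : x ≠ 0) : w.valuation M x⁻¹ < 1 ↔ 1 < w.valuation M x := by
  rw [map_inv₀]
  have h0 : 0 < w.valuation M x := by
    rw [zero_lt_iff]
    exact (Valuation.ne_zero_iff _).2 hx
  exact inv_lt_one₀ h0

theorem exists_exc (K : Type) [Field K] [NumberField K] (r : ℕ) (hr : 1 ≤ r) :
    ∃ E : Set K[X], ExcSet K r E := by
  obtain ⟨E₁, h1, h2⟩ := ke2 K r hr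
  obtain ⟨E₂, h3, h4⟩ := vkg_holds K r hr
  refine ⟨E₁ ∪ E₂, ?_, ?_, ?_⟩
  · intro U hU
    obtain ⟨f1, c1⟩ := h1 U hU
    obtain ⟨f2, c2⟩ := h3 U hU
    have e : {p | p ∈ E₁ ∪ E₂ ∧ AtH r U p} = {p | p ∈ E₁ ∧ AtH r U p} ∪ {p | p ∈ E₂ ∧ AtH r U p} := by
      ext p
      simp only [Set.mem_union, Set.mem_ofPred_eq]
      tauto
    rw [e]
    refine ⟨f1.union f2, ?_⟩
    have h5 := Set.ncard_union_le {p | p ∈ E₁ ∧ AtH r U p} {p | p ∈ E₂ ∧ AtH r U p}
    have h6 : (({p | p ∈ E₁ ∧ AtH r U p} ∪ {p | p ∈ E₂ ∧ AtH r U p}).ncard : ℝ) ≤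
        ({p | p ∈ E₁ ∧ AtH r U p}.ncard : ℝ) + ({p | p ∈ E₂ ∧ AtH r U p}.ncard : ℝ) := by
      exact_mod_cast h5
    linarith
  · intro S F hF1 hF2 κ hκ
    obtain ⟨C, hC⟩ := h2 S F hF1 hF2 κ hκ
    exact ⟨C, fun M _ _ _ x hM hx hxE => hC M x hM hx fun h => hxE (Or.inl h)⟩
  · intro S κ hκ
    obtain ⟨C, hC⟩ := h4 K 1 (fun _ => 0) (fun i j _ => Subsingleton.elim i j)
      (fun _ => by
        rw [minpoly.zero, natDegree_X]; omega) 0 1 1 0 (by simp) S κ hκ
    refine ⟨C, fun M _ _ _ x hM hx hxE hx0 W hW => ?_⟩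
    have hfd : FiniteDimensional K M := Module.Finite.of_restrictScalars_finite ℚ K M
    have hxi : x⁻¹ ≠ 0 := inv_ne_zero hx0
    have htop : IntermediateField.adjoin K {x⁻¹} = ⊤ := by
      have h5 : IntermediateField.adjoin K {x} = ⊤ := by
        rw [Field.primitive_element_iff_minpoly_natDegree_eq, hx, hM]
      rw [eq_top_iff, ← h5, IntermediateField.adjoin_le_iff, Set.singleton_subset_iff]
      have h6 := inv_mem (IntermediateField.mem_adjoin_simple_self K x⁻¹)
      rwa [inv_inv] at h6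
    have h7 := hC M x⁻¹ x htop (by
        simp [hx0]) (by
        rw [map_one, map_zero, one_mul, add_zero]; exact hxi) hx (fun h => hxE (Or.inr h))
        (fun _ => by rw [map_zero]; exact hxi) W (by
        intro w h8 _ h9
        obtain ⟨j, h9⟩ := h9
        rw [map_zero, sub_zero] at h9
        exact hW w h8 ((val_inv_lt hx0).1 h9))
    rw [Height.logHeight₁_inv] at h7
    simpa using h7

/-! ### poles -/

theorem pole_val' {K : Type} [Field K] [NumberField K] {P F G : K[X]} (hP : Irreducible P)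
    (hF : ¬ P ∣ F) (hG : P ∣ G) : ∃ d : ℕ, d ≠ 0 ∧ ∀ (M : Type) [Field M] [NumberField M]
      [Algebra K M] (x : M) (w : HeightOneSpectrum (𝓞 M)), (d : 𝓞 M) ∉ w.asIdeal →
      w.valuation M x ≤ 1 → w.valuation M (aeval x P) < 1 →
      w.valuation M (aeval x G) < 1 ∧ w.valuation M (aeval x F) = 1 := by
  have e : Ideal.span (Set.range (fun _ : Fin 1 => P)) = Ideal.span {P} := by
    rw [Set.range_const]
  have hmax : (Ideal.span (Set.range (fun _ : Fin 1 => P))).IsMaximal := by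
    rw [e]
    exact PrincipalIdealRing.isMaximal_of_irreducible hP
  obtain ⟨d, hd, h⟩ := Pool.Agent.N751.LS.pole_val (K := K) (A := K[X]) (fun _ : Fin 1 => P) hmax
    (F := F) (G := G) (by rw [e, Ideal.mem_span_singleton]; exact hF)
    (by rw [e, Ideal.mem_span_singleton]; exact hG)
  refine ⟨d, hd, fun M _ _ _ x w hw hx hPx => ?_⟩
  have h1 := h M (aeval x) w hw (by simpa using hx) (fun _ => hPx)
  exact h1

/-- a non-constant function `A / B` has many poles at the points outside the exceptional set -/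
theorem many_poles {K : Type} [Field K] [NumberField K] {r : ℕ} {E : Set K[X]}
    (hE : ExcSet K r E) {A B : K[X]} (hAB : IsCoprime A B) (hB : B ≠ 0)
    (hN : 1 ≤ max A.natDegree B.natDegree) : ∃ C : ℝ, 0 ≤ C ∧
    ∀ (M : Type) [Field M] [NumberField M] [Algebra K M] (x : M), finrank K M = r →
      (minpoly K x).natDegree = r → minpoly K x ∉ E → x ≠ 0 → aeval x B ≠ 0 →
      ∃ W : Finset (HeightOneSpectrum (𝓞 M)),
        (∀ w ∈ W, 1 < w.valuation M (aeval x A / aeval x B)) ∧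
        1 / 2 * logHeight₁ x ≤ ∑ w ∈ W, lN w + C := by
  classical
  -- the set of the poles
  have hfin : ∀ (M : Type) [Field M] [NumberField M] (y : M),
      {w : HeightOneSpectrum (𝓞 M) | 1 < w.valuation M y}.Finite := fun M _ _ y =>
    HeightOneSpectrum.Support.finite (𝓞 M) y
  have div_gt : ∀ (M : Type) [Field M] [NumberField M] (w : HeightOneSpectrum (𝓞 M)) (y z : M),
      w.valuation M y = 1 → w.valuation M z < 1 → z ≠ 0 → 1 < w.valuation M (y / z) := by
    intro M _ _ w y z hy hz hz0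
    rw [map_div₀, hy, one_div]
    have h0 : 0 < w.valuation M z := by
      rw [zero_lt_iff]
      exact (Valuation.ne_zero_iff _).2 hz0
    exact (one_lt_inv₀ h0).2 hz
  by_cases hBu : B.natDegree = 0
  · -- the pole at infinity
    have hA1 : 1 ≤ A.natDegree := by omega
    have hA0 : A ≠ 0 := by rintro rfl; simp at hA1
    obtain ⟨b, rfl⟩ : ∃ b, B = C b := ⟨B.coeff 0, eq_C_of_natDegree_eq_zero hBu⟩
    have hb : b ≠ 0 := by rintro rfl; simp at hB
    obtain ⟨d, hd, hval⟩ := pole_val' (K := K) (P := X) (F := A.reverse)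
      (G := C b * X ^ A.natDegree) irreducible_X (by
        rw [X_dvd_iff, coeff_zero_reverse]
        exact leadingCoeff_ne_zero.2 hA0) (by
        exact Dvd.dvd.mul_left (dvd_pow_self X (by omega)) _)
    obtain ⟨C₀, hC₀⟩ := hE.poles {d} (1 / 2) (by norm_num)
    refine ⟨max C₀ 0, le_max_right _ _, fun M _ _ _ x hM hx hxE hx0 hBx => ?_⟩
    refine ⟨(hfin M (aeval x A / aeval x (C b))).toFinset, fun w hw => by
      rw [Set.Finite.mem_toFinset] at hw
      exact hw, ?_⟩
    have h1 := hC₀ M x hM hx hxE hx0 (hfin M (aeval x A / aeval x (C b))).toFinset (by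
      intro w hw hxw
      rw [Set.Finite.mem_toFinset]
      show 1 < w.valuation M (aeval x A / aeval x (C b))
      have hdw := hw d (Finset.mem_singleton_self d) hd
      have hxi := (val_inv_lt (w := w) hx0).2 hxw
      obtain ⟨h2, h3⟩ := hval M x⁻¹ w hdw hxi.le (by rw [aeval_X]; exact hxi)
      have h4 : aeval x⁻¹ A.reverse = aeval x A * (x⁻¹) ^ A.natDegree := by
        have hinv : Invertible x := invertibleOfNonzero hx0
        have h5 := eval₂_reverse_mul_pow (algebraMap K M) x A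
        rw [← aeval_def, ← aeval_def, invOf_eq_inv] at h5
        rw [← h5, mul_assoc, ← mul_pow, mul_inv_cancel₀ hx0, one_pow, mul_one]
      have h6 : aeval x⁻¹ (C b * X ^ A.natDegree : K[X]) =
          aeval x (C b) * (x⁻¹) ^ A.natDegree := by
        rw [map_mul, map_pow, aeval_X, aeval_C, aeval_C]
      have h7 : aeval x A / aeval x (C b) =
          aeval x⁻¹ A.reverse / aeval x⁻¹ (C b * X ^ A.natDegree : K[X]) := by
        rw [h4, h6, mul_div_mul_right _ _ (pow_ne_zero _ (inv_ne_zero hx0))]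
      rw [h7]
      refine div_gt M w _ _ h3 h2 ?_
      rw [h6]
      exact mul_ne_zero hBx (pow_ne_zero _ (inv_ne_zero hx0)))
    have h2 := le_max_left C₀ 0
    linarith
  · -- a finite pole
    obtain ⟨P, hPm, hPi, hPB⟩ := exists_monic_irreducible_factor B (by
      intro h
      exact hBu (natDegree_eq_zero_of_isUnit h))
    have hPA : ¬ P ∣ A := by
      intro h
      exact hPi.not_isUnit (hAB.isUnit_of_dvd' h hPB)
    obtain ⟨d, hd, hval⟩ := pole_val' (K := K) hPi hPA hPB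
    obtain ⟨C₀, hC₀⟩ := hE.zeros {d} P hPm hPi (1 / 2) (by norm_num)
    refine ⟨max C₀ 0, le_max_right _ _, fun M _ _ _ x hM hx hxE hx0 hBx => ?_⟩
    refine ⟨(hfin M (aeval x A / aeval x B)).toFinset, fun w hw => by
      rw [Set.Finite.mem_toFinset] at hw
      exact hw, ?_⟩
    have h1 := hC₀ M x hM hx hxE (hfin M (aeval x A / aeval x B)).toFinset (by
      rintro w ⟨hw, hxw, hPw⟩
      rw [Set.Finite.mem_toFinset]
      obtain ⟨h2, h3⟩ := hval M x w (hw d (Finset.mem_singleton_self d) hd) hxw hPw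
      exact div_gt M w _ _ h3 h2 hBx)
    have h2 : (1 : ℝ) ≤ mn r P := by
      have h3 : 1 ≤ mn r P := by
        unfold mn
        have := hPi.natDegree_pos
        omega
      exact_mod_cast h3
    have h4 := le_max_left C₀ 0
    have h5 : (1 / 2 : ℝ) * logHeight₁ x ≤ ((mn r P : ℝ) - 1 / 2) * logHeight₁ x :=
      mul_le_mul_of_nonneg_right (by linarith) (zero_le_logHeight₁ x)
    linarith

/-- **the strong alternative at almost all points of degree `r`** -/
theorem strong_points (N d g : ℕ) (hg : 0 < g) (κ : ℝ) (hκ : 0 ≤ κ) :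
    ∃ c₁ : ℝ, 0 < c₁ ∧ ∃ c₂ : ℕ, ∀ (K : Type) [Field K] [NumberField K] (r : ℕ) (E : Set K[X]),
      1 ≤ r → ExcSet K r E → ∀ A B : K[X], IsCoprime A B → B ≠ 0 →
      1 ≤ max A.natDegree B.natDegree → max A.natDegree B.natDegree ≤ N → ∃ C₀ : ℝ,
        ∀ (M : Type) [Field M] [NumberField M] [Algebra K M] (x : M), finrank K M = r →
          (minpoly K x).natDegree = r → minpoly K x ∉ E → C₀ ≤ logHeight₁ x →
          aeval x B ≠ 0 ∧ StrongAt c₁ c₂ d g κ (aeval x A / aeval x B) := by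
  obtain ⟨c₁, hc₁, c₂, h⟩ := Pool.Agent.N751.LS.strong_of_poles d g hg κ (4 * (N + 1)) hκ
    (by positivity)
  refine ⟨c₁, hc₁, c₂, fun K _ _ r E hr hE A B hAB hB hN1 hN => ?_⟩
  obtain ⟨C₁, hC₁, hpol⟩ := many_poles hE hAB hB hN1
  obtain ⟨C₂, hht⟩ := Pool.Agent.N490.FR.Ht.t K A B hAB r
  obtain ⟨C₃, hC₃, hroot⟩ := Pool.Agent.N751.LS.ht_poly_root (K := K) B hB
  refine ⟨max (max (4 * C₁) C₂) (finrank ℚ K * r * C₃) + 1, ?_⟩
  intro M _ _ _ x hM hx hxE hxC
  have h1 : 4 * C₁ ≤ logHeight₁ x := by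
    have := (le_max_left (4 * C₁) C₂).trans (le_max_left _ (finrank ℚ K * r * C₃))
    linarith
  have h2 : C₂ ≤ logHeight₁ x := by
    have := (le_max_right (4 * C₁) C₂).trans (le_max_left _ (finrank ℚ K * r * C₃))
    linarith
  have h3 : (finrank ℚ K * r * C₃ : ℝ) < logHeight₁ x := by
    have := le_max_right (max (4 * C₁) C₂) (finrank ℚ K * r * C₃)
    linarith
  have hx0 : x ≠ 0 := by
    rintro rfl
    rw [logHeight₁_zero] at h3
    have : (0 : ℝ) ≤ finrank ℚ K * r * C₃ := by positivity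
    linarith
  have hBx : aeval x B ≠ 0 := by
    intro h4
    have h5 := hroot M x h4
    have h6 : finrank ℚ K * finrank K M = finrank ℚ M := finrank_mul_finrank ℚ K M
    rw [← h6, hM] at h5
    push_cast at h5
    linarith
  refine ⟨hBx, ?_⟩
  obtain ⟨W, hW, hsum⟩ := hpol M x hM hx hxE hx0 hBx
  refine h M _ W hW ?_
  have h7 := (hht M x hM hBx).1
  have h8 : ((max A.natDegree B.natDegree : ℕ) : ℝ) ≤ N := by exact_mod_cast hN
  have h9 : 0 ≤ logHeight₁ x := zero_le_logHeight₁ x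
  have h10 : ((max A.natDegree B.natDegree : ℕ) : ℝ) * logHeight₁ x ≤ N * logHeight₁ x :=
    mul_le_mul_of_nonneg_right h8 h9
  have h11 : (1 / 4 : ℝ) * logHeight₁ x ≤ ∑ w ∈ W, lN w := by linarith
  have h12 : ∑ w ∈ W, lN w = ∑ w ∈ W, Real.log (Ideal.absNorm w.asIdeal) := rfl
  rw [← h12]
  calc logHeight₁ (aeval x A / aeval x B) ≤ (N + 1) * logHeight₁ x := by linarith
    _ = 4 * (N + 1) * (1 / 4 * logHeight₁ x) := by ring
    _ ≤ 4 * (N + 1) * ∑ w ∈ W, lN w := mul_le_mul_of_nonneg_left h11 (by positivity)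

end Pool.Agent.J6H73.SB
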