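import Mathlib
import Pool.Agent.J6H73.SB.LS
import Pool.Agent.Y728.AK.JModel

/-!
# The strong Lang-Silverman alternative at almost all algebraic points of every degree, in all
# one-parameter families of elliptic curves at once

Let `K` be a number field and `r ≥ 1`. There is ONE set `E` of algebraic numbers of degree `r` over
`K` (given by their minimal polynomials), which has density zero: it contains at most the
proportion `C exp(-√T)` of the numbers of degree `r` over `K` of absolute logarithmic height at most
`T`, of which there are at least `c exp(r (r + 1) [K : ℚ] T)`; and for ALL non-constant rational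
functions `J = A / B` over `K`, for example the `j`-invariants of all elliptic curves over `K(X)`,
whatever the degrees of their poles, the following holds for all numbers `x` of degree `r` over `K`
which are not in `E`, of height at least `C₀(J)`: for all elliptic curves of invariant `J(x)` over
all number fields `L` of degree at most `d` containing `K(x)`, all forms `A` over `L` of their `g`-th
powers, all polarizations of `A` and all `P ∈ A(L)`, either `P` has order at most `c₂` modulo a
proper abelian subvariety of degree at most `c₂` times that of `A`, or the canonical height of `P` is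
at least `c₁` times the height of `A`. The constants `c₁ > 0` and `c₂` depend only on the degree of
`J` and on `d`, `g` (and `κ`, see below), not on `K`, `r` or `J`. With `J = X`: this holds for
100 percent of the invariants `j` of degree `r` over `K`.

`E : y² = x³ + a x + b` is an elliptic curve of invariant `j` with `a`, `b` integral of height at
most `κ (1 + h(j))`.  A finite Galois extension `W` of `L` and a faithful representation `ρ` of its
group by integral matrices of size `g` define an abelian variety `A` over `L`, the form of `E ^ g`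
with `A(L) = {P ∈ E(W) ^ g | ρ(σ) σ(P) = P for all σ}` (`FixedPt ρ P`); for `g = 1` these are `E`
and all its quadratic twists.  A symmetric positive definite integral matrix `M` with
`ρ(σ)ᵀ M ρ(σ) = M` (`Polar ρ M`) is a polarization of `A` over `L`; the corresponding absolute
canonical height is `chatM M P / [W : ℚ]`.

`SubvarLe c ρ M P` is the first alternative: the columns of the primitive integral matrix `β` of
size `g × m`, `m < g`, span a sublattice stable under `ρ`, and so define an abelian subvariety
`B` over `L` of dimension `m`, its degree for the polarization is at most `c` times that of `A`, and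
`n P` is in `B` for some positive `n ≤ c`.  `Pts W a b` is the group of points over `W`, `sht P` the
height of the `x`-coordinate, `chat P` the canonical height (`ChatLim`: the limit of
`4⁻ⁿ sht (2ⁿ P)`), `RamPrimes L T` says that for each prime `v` in `T` there is `σ ≠ 1` in the
inertia group, `logNorms T` is the sum of `log N v`, `v ∈ T`, and `absH` is the absolute logarithmic
height.

Proof. Let `P` be a pole of `J`, of any degree. Outside a set of numbers of degree `r` of density
zero (one set for all `P`, by a diagonal argument) the primes `w` of `K(x)` at which `x` meets `P`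
satisfy `∑ log N w ≥ (min(r + 1, deg P) - ε) h(x) - C`: in the family of the polynomials of degree
`r` over `K` with the root `x`, the values of the incomplete norm form of `P` are rarely divisible by
the squares of primes of medium size (lattice points), rarely have a large powerful part (translates,
`Pool.Agent.J6H73.SB`), and one large prime is enough. So `J(x)` has many poles, and this gives the
alternative (`Pool.Agent.N751.LS.strong_of_poles`).
-/

set_option autoImplicit false

namespace Pool.Agent.Results.MP_f5471b_nt.AlmostAllAlgebraicPoints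

open Pool.Agent.TH910.LS Pool.Agent.Y725.LS NumberField IsDedekindDomain Polynomial

/-- the minimal polynomials over `K` of the algebraic numbers of degree `r` over `K` whose absolute
logarithmic height is at most `T` -/
def Numbers (K : Type) [Field K] [NumberField K] (r : ℕ) (T : ℝ) : Set K[X] :=
  {p | p.natDegree = r ∧ ∃ (M : Type) (_ : Field M) (_ : NumberField M) (_ : Algebra K M) (x : M),
    Module.finrank K M = r ∧ minpoly K x = p ∧ absH x ≤ T}

/-- the alternative, with the constants `c₁` and `c₂`, for all forms of dimension `g` of the powers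
of the curve `y² = x³ + a x + b` over `L` that are split by `W` -/
def Alternative (c₁ : ℝ) (c₂ g : ℕ) {L : Type} [Field L] [NumberField L] (a b : 𝓞 L) (W : Type)
    [Field W] [NumberField W] [Algebra L W] [DecidableEq W] : Prop :=
  ∀ (ρ : (W ≃ₐ[L] W) →* Matrix (Fin g) (Fin g) ℤ) (M : Matrix (Fin g) (Fin g) ℤ)
    (P : Fin g → Pts W a b) (T : Finset (HeightOneSpectrum (𝓞 W))),
    Faithful ρ → Polar ρ M → FixedPt ρ P → RamPrimes L T →
      SubvarLe c₂ ρ M P ∨
      (¬ IsOfFinAddOrder P ∧
        c₁ * (1 + absH (jinv (a : L) b) + logNorms T / Module.finrank ℚ W) ≤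
          chatM M P / Module.finrank ℚ W)

/-- the alternative, with constants `c₁` and `c₂`, holds for all elliptic curves of invariant `j` over
the number field `L`, given by an integral equation `y² = x³ + a x + b` whose coefficients have
height at most `κ (1 + h(j))`, and for all forms of dimension `g` of their powers -/
def HoldsAt (c₁ : ℝ) (c₂ g : ℕ) (κ : ℝ) {L : Type} [Field L] [NumberField L] (j : L) : Prop :=
  ∀ a b : 𝓞 L, 4 * (a : L) ^ 3 + 27 * (b : L) ^ 2 ≠ 0 →
    absH (a : L) + absH (b : L) ≤ κ * (1 + absH (jinv (a : L) b)) → jinv (a : L) b = j →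
    ∀ (W : Type) [Field W] [NumberField W] [Algebra L W] [IsGalois L W] [DecidableEq W],
      ChatLim W a b ∧ Alternative c₁ c₂ g a b W

theorem numbers_eq (K : Type) [Field K] [NumberField K] (r : ℕ) (T : ℝ) :
    Numbers K r T = {p | Pool.Agent.N753.DR.AtH r (r * Module.finrank ℚ K * T) p} := by
  have hK : 0 < Module.finrank ℚ K := Module.finrank_pos
  have key : ∀ (M : Type) [Field M] [NumberField M] [Algebra K M] (x : M),
      Module.finrank K M = r → (absH x ≤ T ↔
        Height.logHeight₁ x ≤ r * Module.finrank ℚ K * T) := by
    intro M _ _ _ x hM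
    have h1 : Module.finrank ℚ K * Module.finrank K M = Module.finrank ℚ M :=
      Module.finrank_mul_finrank ℚ K M
    rw [hM] at h1
    have h2 : (0 : ℝ) < Module.finrank ℚ M := by
      exact_mod_cast (Module.finrank_pos : 0 < Module.finrank ℚ M)
    unfold absH
    rw [div_le_iff₀ h2, ← h1]
    push_cast
    rw [mul_comm T, mul_comm (r : ℝ)]
  ext p
  constructor
  · rintro ⟨hp, M, _, _, _, x, hM, hx, hT⟩
    exact ⟨M, _, _, _, x, hM, by rw [hx, hp], hx, (key M x hM).1 hT⟩
  · rintro ⟨M, _, _, _, x, hM, hr, hx, hT⟩
    exact ⟨by rw [← hx, hr], M, _, _, _, x, hM, hx, (key M x hM).2 hT⟩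

/-- **Theorem.** There are sets `E K r` of (minimal polynomials of) numbers of degree `r` over `K`
such that (1) `E K r` has density zero among the numbers of degree `r` over `K`, ordered by their
height; (2) for all `N`, `d`, `g`, `κ` there are constants `c₁ > 0` and `c₂` such that for every number
field `K`, every `r ≥ 1` and every non-constant rational function `J = A / B` of degree at most `N`
over `K` the alternative with these constants holds for all elliptic curves of invariant `J(x)` over
number fields of degree at most `d` and all forms of their `g`-th powers, for all `x` of degree `r`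
over `K` which are not in `E K r`, of height at least `C₀(J)`. (3) Every `j ≠ 0, 1728` is the
invariant of a curve with small coefficients, as assumed in `HoldsAt`, with a `κ` depending only on
the degree of the field. -/
theorem result :
    (∃ E : ∀ (K : Type) [Field K] [NumberField K], ℕ → Set K[X],
      (∀ (K : Type) [Field K] [NumberField K] (r : ℕ), 1 ≤ r →
        (∀ T : ℝ, (Numbers K r T).Finite) ∧
        (∃ c T₀ : ℝ, 0 < c ∧ ∀ T : ℝ, T₀ ≤ T →
          c * Real.exp (r * (r + 1) * Module.finrank ℚ K * T) ≤ (Numbers K r T).ncard) ∧
        ∃ C : ℝ, ∀ T : ℝ, 0 ≤ T → ((E K r ∩ Numbers K r T).ncard : ℝ) ≤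
          C * Real.exp (-√T) * (Numbers K r T).ncard) ∧
      ∀ (N d g : ℕ) (κ : ℝ), 0 < g → 0 ≤ κ → ∃ (c₁ : ℝ) (c₂ : ℕ), 0 < c₁ ∧
        ∀ (K : Type) [Field K] [NumberField K] (r : ℕ), 1 ≤ r →
          ∀ A B : K[X], IsCoprime A B → B ≠ 0 → 1 ≤ max A.natDegree B.natDegree →
            max A.natDegree B.natDegree ≤ N → ∃ C₀ : ℝ,
              ∀ (L : Type) [Field L] [NumberField L] [Algebra K L] (x : L),
                Module.finrank ℚ L ≤ d → (minpoly K x).natDegree = r → minpoly K x ∉ E K r →
                C₀ ≤ absH x → aeval x B ≠ 0 ∧ HoldsAt c₁ c₂ g κ (aeval x A / aeval x B)) ∧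
    (∀ d : ℕ, ∃ κ : ℝ, 0 ≤ κ ∧ ∀ (L : Type) [Field L] [NumberField L],
      Module.finrank ℚ L ≤ d → ∀ j : L, j ≠ 0 → j ≠ 1728 → ∃ a b : 𝓞 L,
        4 * (a : L) ^ 3 + 27 * (b : L) ^ 2 ≠ 0 ∧ jinv (a : L) b = j ∧
        absH (a : L) + absH (b : L) ≤ κ * (1 + absH j)) := by
  classical
  refine ⟨?_, Pool.Agent.Y728.AK.exists_model⟩
  let E : ∀ (K : Type) [Field K] [NumberField K], ℕ → Set K[X] := fun K _ _ r =>
    if h : 1 ≤ r then (Pool.Agent.J6H73.SB.exists_exc K r h).choose else ∅
  have hE : ∀ (K : Type) [Field K] [NumberField K] (r : ℕ), 1 ≤ r →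
      Pool.Agent.J6H73.SB.ExcSet K r (E K r) := by
    intro K _ _ r hr
    have h1 : E K r = (Pool.Agent.J6H73.SB.exists_exc K r hr).choose := dif_pos hr
    rw [h1]
    exact (Pool.Agent.J6H73.SB.exists_exc K r hr).choose_spec
  refine ⟨E, ?_, ?_⟩
  · intro K _ _ r hr
    have hn : (1 : ℝ) ≤ Module.finrank ℚ K := by
      exact_mod_cast (Module.finrank_pos : 0 < Module.finrank ℚ K)
    have hr' : (1 : ℝ) ≤ r := by exact_mod_cast hr
    have hrn : (1 : ℝ) ≤ r * Module.finrank ℚ K := one_le_mul_of_one_le_of_one_le hr' hn
    obtain ⟨Ca, hCa, hall⟩ := Pool.Agent.N130.PC.Cnt.t K r hr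
    obtain ⟨c, U₀, hc, htot⟩ := Pool.Agent.N31.FR.t K r hr
    have hfin0 : ∀ T : ℝ, 0 ≤ T → (Numbers K r T).Finite := by
      intro T hT
      rw [numbers_eq K r]
      exact (hall _ (by positivity)).1
    have hfin : ∀ T : ℝ, (Numbers K r T).Finite := by
      intro T
      refine (hfin0 (max T 0) (le_max_right _ _)).subset ?_
      rintro p ⟨hp, M, _, _, _, x, hM, hx, hT⟩
      exact ⟨hp, M, _, _, _, x, hM, hx, hT.trans (le_max_left _ _)⟩
    have hlow : ∀ T : ℝ, U₀ ≤ r * Module.finrank ℚ K * T →
        c * Real.exp (r * (r + 1) * Module.finrank ℚ K * T) ≤ (Numbers K r T).ncard := by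
      intro T hT
      obtain ⟨F, hF, hcard⟩ := htot _ hT
      have h1 : (F.card : ℝ) ≤ (Numbers K r T).ncard := by
        rw [← Set.ncard_coe_finset F]
        have h2 : (F : Set K[X]) ⊆ Numbers K r T := by
          intro p hp
          rw [numbers_eq K r]
          exact hF p hp
        exact_mod_cast Set.ncard_le_ncard h2 (hfin T)
      refine le_trans (le_of_eq ?_) (hcard.trans h1)
      congr 2
      ring
    have hup : ∀ T : ℝ, 0 ≤ T → ((E K r ∩ Numbers K r T).ncard : ℝ) ≤
        3 * Real.exp (r * (r + 1) * Module.finrank ℚ K * T) * Real.exp (-√T) := by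
      intro T hT
      have h1 := ((hE K r hr).count (r * Module.finrank ℚ K * T) (by positivity)).2
      have h2 : E K r ∩ Numbers K r T =
          {p | p ∈ E K r ∧ Pool.Agent.N753.DR.AtH r (r * Module.finrank ℚ K * T) p} := by
        rw [numbers_eq K r]; rfl
      rw [h2]
      refine h1.trans ?_
      rw [mul_assoc 3 (Real.exp _) (Real.exp _), ← Real.exp_add]
      refine mul_le_mul_of_nonneg_left (Real.exp_le_exp.2 ?_) (by norm_num)
      have h3 : √T ≤ √(r * Module.finrank ℚ K * T) :=
        Real.sqrt_le_sqrt (le_mul_of_one_le_left hT hrn)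
      have h4 : ((r : ℝ) + 1) * (r * Module.finrank ℚ K * T) =
          r * (r + 1) * Module.finrank ℚ K * T := by ring
      rw [h4]
      linarith
    refine ⟨hfin, ⟨c, max U₀ 0, hc, fun T hT => hlow T ?_⟩, ?_⟩
    · have h1 : 0 ≤ T := (le_max_right _ _).trans hT
      have h2 : U₀ ≤ T := (le_max_left _ _).trans hT
      exact h2.trans (le_mul_of_one_le_left h1 hrn)
    · set T₁ : ℝ := max U₀ 0 with hT₁
      have hT₁0 : 0 ≤ T₁ := le_max_right _ _
      set D : ℝ := 3 * Real.exp (r * (r + 1) * Module.finrank ℚ K * T₁) with hD
      refine ⟨max (3 / c) D, fun T hT => ?_⟩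
      rcases le_or_gt T₁ T with hle | hlt
      · have h1 := hlow T (((le_max_left _ _).trans hle).trans (le_mul_of_one_le_left hT hrn))
        calc ((E K r ∩ Numbers K r T).ncard : ℝ) ≤ _ := hup T hT
          _ = 3 / c * Real.exp (-√T) *
              (c * Real.exp (r * (r + 1) * Module.finrank ℚ K * T)) := by
              field_simp
          _ ≤ 3 / c * Real.exp (-√T) * (Numbers K r T).ncard :=
              mul_le_mul_of_nonneg_left h1 (by positivity)
          _ ≤ _ := by
              gcongr
              exact le_max_left _ _
      · rcases Set.eq_empty_or_nonempty (Numbers K r T) with he | hne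
        · rw [he]; simp
        · have h1 : (1 : ℝ) ≤ (Numbers K r T).ncard := by
            exact_mod_cast (Set.ncard_pos (hfin T)).2 hne
          calc ((E K r ∩ Numbers K r T).ncard : ℝ) ≤ _ := hup T hT
            _ ≤ D * Real.exp (-√T) := by
                rw [hD]
                gcongr
            _ = D * Real.exp (-√T) * 1 := by ring
            _ ≤ D * Real.exp (-√T) * (Numbers K r T).ncard :=
                mul_le_mul_of_nonneg_left h1 (by positivity)
            _ ≤ _ := by
                gcongr
                exact le_max_right _ _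
  · intro N d g κ hg hκ
    obtain ⟨c₁, hc₁, c₂, h⟩ := Pool.Agent.J6H73.SB.strong_points N d g hg κ hκ
    refine ⟨c₁, c₂, hc₁, fun K _ _ r hr A B hAB hB hN1 hN => ?_⟩
    obtain ⟨C₀, hC₀⟩ := h K r (E K r) hr (hE K r hr) A B hAB hB hN1 hN
    refine ⟨max C₀ 0, fun L _ _ _ x hd hx hxE hxC => ?_⟩
    have hfd : FiniteDimensional K L := Module.Finite.of_restrictScalars_finite ℚ K L
    let M := IntermediateField.adjoin K {x}
    let x' : M := IntermediateField.AdjoinSimple.gen K x
    have hxx : algebraMap M L x' = x := IntermediateField.AdjoinSimple.algebraMap_gen K x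
    have hmin : minpoly K x' = minpoly K x := IntermediateField.minpoly_gen K x
    have hfr : Module.finrank K M = r := by
      rw [IntermediateField.adjoin.finrank (IsIntegral.of_finite K x), hx]
    have hht : C₀ ≤ Height.logHeight₁ x' := by
      have h1 : Height.logHeight₁ x = Module.finrank M L * Height.logHeight₁ x' := by
        rw [← hxx]
        exact Pool.Agent.N265.CV.ht1_ext M L x'
      have h2 : Module.finrank ℚ M * Module.finrank M L = Module.finrank ℚ L :=
        Module.finrank_mul_finrank ℚ M L
      have h3 : (1 : ℝ) ≤ Module.finrank ℚ M := by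
        exact_mod_cast (Module.finrank_pos : 0 < Module.finrank ℚ M)
      have h4 : (0 : ℝ) < Module.finrank ℚ L := by
        exact_mod_cast (Module.finrank_pos : 0 < Module.finrank ℚ L)
      have h5 : (0 : ℝ) < Module.finrank M L := by
        exact_mod_cast (Module.finrank_pos : 0 < Module.finrank M L)
      have h6 : absH x * Module.finrank ℚ M = Height.logHeight₁ x' := by
        unfold absH
        rw [h1, ← h2]
        push_cast
        have h7 : (Module.finrank ℚ M : ℝ) ≠ 0 := by positivity
        field_simp
      rw [← h6]
      have h8 : C₀ ≤ absH x := (le_max_left _ _).trans hxC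
      have h9 : 0 ≤ absH x := (le_max_right _ _).trans hxC
      nlinarith
    obtain ⟨hB', hS⟩ := hC₀ M x' hfr (by rw [hmin, hx]) (by rw [hmin]; exact hxE) hht
    have e1 : aeval x A = algebraMap M L (aeval x' A) := by
      rw [← hxx, aeval_algebraMap_apply]
    have e2 : aeval x B = algebraMap M L (aeval x' B) := by
      rw [← hxx, aeval_algebraMap_apply]
    refine ⟨?_, ?_⟩
    · rw [e2]
      exact (_root_.map_ne_zero _).2 hB'
    · intro a b hab hsm hj W _ _ _ _ _
      exact hS L hd a b hab hsm (by rw [hj, e1, e2, map_div₀]) W

end Pool.Agent.Results.MP_f5471b_nt.AlmostAllAlgebraicPoints
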