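import Pool.Agent.J6H73.SB.Main
import Pool.Agent.N530.DR.Large
import Pool.Agent.N147.DR.Lat
import Pool.Agent.N262.DR.Places

/-!
# The radical of the value of a polynomial at the points of degree `r`, without condition on the
# degree of the polynomial

For `[L : K] > 2 r + 1` the radical is at least the power `r + 1 - κ` of the height.
-/

set_option autoImplicit false

namespace Pool.Agent.J6H73.SB

open NumberField IsDedekindDomain Module Pool.Agent.N753.DR Pool.Agent.N97.DR.Core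

/-- the radical is almost always large, any degree -/
def StmCore2 : Prop := ∀ (K L : Type) [Field K] [NumberField K] [Field L] [NumberField L]
  [Algebra K L] (θ : 𝓞 L) (a r : ℕ), IntermediateField.adjoin K {(θ : L)} = ⊤ → a ≠ 0 → 1 ≤ r →
  ∃ Bad0 : Finset (HeightOneSpectrum (𝓞 K)), ∀ Bad : Finset (HeightOneSpectrum (𝓞 K)),
    Bad0 ⊆ Bad → ∀ κ : ℝ, 0 < κ → ∃ ν C : ℝ, 0 < ν ∧ ∀ B : ℕ, 1 ≤ B →
    ({c ∈ Bx K (r + 1) B | ∃ W : Finset (HeightOneSpectrum (𝓞 K)),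
      (∀ v ∉ Bad, ∀ w : HeightOneSpectrum (𝓞 L), w.asIdeal.LiesOver v.asIdeal →
        ev a θ c ∈ w.asIdeal → v ∈ W) ∧
      ∑ v ∈ W, lN v ≤ ((min (r + 1) (finrank K L) : ℕ) - κ) *
        ((finrank ℚ K : ℝ) * Real.log B)}.ncard : ℝ) ≤
      C * (B : ℝ) ^ ((finrank ℚ K : ℝ) * (r + 1) - ν)

theorem core2 (h1 : StmTyp) (h2 : StmLarge) (h3 : StmSmall) (h4 : StmPlaces) : StmCore2 := by
  intro K L _ _ _ _ _ θ a r hθ ha hr
  classical
  have hfd : FiniteDimensional K L := Module.Finite.of_restrictScalars_finite ℚ K L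
  have hk1 : 1 ≤ finrank K L := finrank_pos
  have hn1 : 1 ≤ finrank ℚ K := finrank_pos
  have hnk : finrank ℚ K * finrank K L = finrank ℚ L := Module.finrank_mul_finrank ℚ K L
  obtain ⟨Bad1, hB1⟩ := h1 K L θ a r hθ ha hr
  obtain ⟨Bad2, hB2⟩ := h2 K L θ a r (min (r + 1) (finrank K L)) hθ ha hr (by omega) (by omega)
    (by omega) (by omega)
  obtain ⟨Bad3, hB3⟩ := h3 K L θ a r hθ ha hr
  refine ⟨Bad1 ∪ Bad2 ∪ Bad3, fun Bad hBad κ hκ => ?_⟩
  have hs2 : ∀ v ∉ Bad, v ∉ Bad2 := fun v hv h => hv (hBad (by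
    rw [Finset.mem_union, Finset.mem_union]; exact Or.inl (Or.inr h)))
  have hs3 : ∀ v ∉ Bad, v ∉ Bad3 := fun v hv h => hv (hBad (by
    rw [Finset.mem_union]; exact Or.inr h))
  set s := min (r + 1) (finrank K L) with hs
  -- the primes above `Bad`
  have hWBfin : {w : HeightOneSpectrum (𝓞 L) | bl (K := K) w ∈ Bad}.Finite := by
    have h5 : {w : HeightOneSpectrum (𝓞 L) | bl (K := K) w ∈ Bad} ⊆
        ⋃ v ∈ Bad, HeightOneSpectrum.asIdeal ⁻¹' (Ideal.primesOver v.asIdeal (𝓞 L)) := by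
      intro w hw
      rw [Set.mem_iUnion₂]
      exact ⟨bl w, hw, ⟨w.isPrime, bl_over w⟩⟩
    refine Set.Finite.subset (Set.Finite.biUnion Bad.finite_toSet fun v _ => ?_) h5
    have : v.asIdeal.IsMaximal := v.isMaximal
    exact (IsDedekindDomain.primesOver_finite v.asIdeal (𝓞 L)).preimage
      (fun x _ y _ h => HeightOneSpectrum.ext h)
  set WB := hWBfin.toFinset with hWB
  have hWBm : ∀ w, bl (K := K) w ∈ Bad → w ∈ WB := fun w hw => by
    rw [hWB, Set.Finite.mem_toFinset]; exact hw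
  -- the parameters
  set kn : ℝ := (finrank ℚ L : ℝ) with hkn
  have hkn' : kn = finrank ℚ K * finrank K L := by rw [hkn, ← hnk]; push_cast; rfl
  have hkn0 : 0 ≤ kn := Nat.cast_nonneg _
  have hn0 : (1 : ℝ) ≤ finrank ℚ K := by exact_mod_cast hn1
  have hsk : (s : ℝ) ≤ finrank K L := by exact_mod_cast min_le_right _ _
  obtain ⟨η, hη0, hη⟩ : ∃ η : ℝ, 0 < η ∧ η * (kn + WB.card + 1) < κ * finrank ℚ K := by
    have h5 : 0 < kn + WB.card + 1 := by positivity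
    refine ⟨κ * finrank ℚ K / (2 * (kn + WB.card + 1)), by positivity, ?_⟩
    rw [div_mul_eq_mul_div, div_lt_iff₀ (by positivity)]
    have : 0 < κ * finrank ℚ K := by positivity
    nlinarith
  obtain ⟨δ₀, ν₀, C₀, hδ₀, hν₀, hsm⟩ := hB3 η hη0
  set δ := min δ₀ (κ / 2) with hδ
  have hδ0 : 0 < δ := lt_min hδ₀ (by positivity)
  have hδ8 : δ ≤ κ / 2 := min_le_right _ _
  obtain ⟨ν₁, C₁, hν₁, hla⟩ := hB2 δ hδ0
  obtain ⟨hpl1, hpl2⟩ := h4 K L θ a r ha hr η hη0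
  -- the exceptional sets
  set N : ℝ := (finrank ℚ K : ℝ) * (r + 1) with hN
  have hN1 : 1 ≤ N := by
    have : (0 : ℝ) ≤ r := Nat.cast_nonneg r
    rw [hN]
    nlinarith
  let E₁ : InfinitePlace L → ℕ → Set (Fin (r + 1) → 𝓞 K) := fun w B =>
    {c ∈ Bx K (r + 1) B | ‖w.embedding (ev a θ c : L)‖ ≤ (B : ℝ) ^ (1 - η)}
  let E₂ : HeightOneSpectrum (𝓞 L) → ℕ → Set (Fin (r + 1) → 𝓞 K) := fun w B =>
    {c ∈ Bx K (r + 1) B | ∃ e : ℕ, ev a θ c ∈ w.asIdeal ^ e ∧ η * Real.log B ≤ e * lN w ∧ 1 ≤ e}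
  let E₃ : ℕ → Set (Fin (r + 1) → 𝓞 K) := fun B =>
    {c ∈ Bx K (r + 1) B | ∃ W : Finset (HeightOneSpectrum (𝓞 L)),
      (∀ w ∈ W, ∃ v ∉ Bad3, w.asIdeal.LiesOver v.asIdeal ∧
        (Ideal.absNorm v.asIdeal : ℝ) ≤ (B : ℝ) ^ δ₀ ∧ NS a θ c v) ∧
      ∃ e : HeightOneSpectrum (𝓞 L) → ℕ, (∀ w ∈ W, ev a θ c ∈ w.asIdeal ^ e w) ∧
        η * Real.log B ≤ ∑ w ∈ W, e w * lN w}
  let E₄ : ℕ → Set (Fin (r + 1) → 𝓞 K) := fun B =>
    {c ∈ Bx K (r + 1) B | ∃ v ∉ Bad2, (B : ℝ) ^ δ ≤ Ideal.absNorm v.asIdeal ∧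
      (Ideal.absNorm v.asIdeal : ℝ) ≤ (B : ℝ) ^ ((finrank ℚ K : ℝ) * s - δ) ∧ NS a θ c v}
  have hR₁ : Rare N (fun B => ⋃ w ∈ (Finset.univ : Finset (InfinitePlace L)), E₁ w B) :=
    Rare.biUnion _ fun w _ => hpl1 w.embedding
  have hR₂ : Rare N (fun B => ⋃ w ∈ WB, E₂ w B) := Rare.biUnion _ fun w _ => hpl2 w
  have hR₃ : Rare N E₃ := ⟨ν₀, C₀, hν₀, hsm⟩
  have hR₄ : Rare N E₄ := ⟨ν₁, C₁, hν₁, hla⟩
  have hR := ((hR₁.union hR₂).union hR₃).union hR₄
  refine Rare.of_large hN1 hR 2 (fun B => ?_) (fun B hB => ?_)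
  · refine (Bx_finite (K := K) (r + 1) B).subset ?_
    rintro c (((hc | hc) | hc) | hc)
    · obtain ⟨w, -, hc⟩ := Set.mem_iUnion₂.1 hc
      exact hc.1
    · obtain ⟨w, -, hc⟩ := Set.mem_iUnion₂.1 hc
      exact hc.1
    · exact hc.1
    · exact hc.1
  · rintro c ⟨hcB, W, hW, hsum⟩
    by_contra hcon
    rw [Set.mem_union, Set.mem_union, Set.mem_union, not_or, not_or, not_or] at hcon
    obtain ⟨⟨⟨hc1, hc2⟩, hc3⟩, hc4⟩ := hcon
    have hB2 : 2 ≤ B := hB
    have hB1 : 1 ≤ B := by omega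
    have hBr : (1 : ℝ) ≤ B := by exact_mod_cast hB1
    have hB0 : (0 : ℝ) < B := by linarith
    have hlB : 0 < Real.log B := Real.log_pos (by
      have : (2 : ℝ) ≤ B := by exact_mod_cast hB2
      linarith)
    have hlow : ∀ w : InfinitePlace L, (B : ℝ) ^ (1 - η) < w (ev a θ c : L) := by
      intro w
      by_contra h
      push Not at h
      refine hc1 (Set.mem_iUnion₂.2 ⟨w, Finset.mem_univ w, hcB, ?_⟩)
      rw [InfinitePlace.norm_embedding_eq]
      exact h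
    have hbad : ∀ w ∈ WB, ∀ e : ℕ, 1 ≤ e → ev a θ c ∈ w.asIdeal ^ e →
        e * lN w < η * Real.log B := by
      intro w hw e he hye
      by_contra h
      push Not at h
      exact hc2 (Set.mem_iUnion₂.2 ⟨w, hw, hcB, e, hye, h, he⟩)
    by_cases hbig : ∃ v ∉ Bad, NS a θ c v ∧
        (B : ℝ) ^ ((finrank ℚ K : ℝ) * s - δ) < Ideal.absNorm v.asIdeal
    · obtain ⟨v, hv, hNS, hbig⟩ := hbig
      -- one large prime is enough
      have hvW : v ∈ W := by
        obtain ⟨b, ⟨w, hw, hb⟩, hev⟩ := hNS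
        refine hW v hv w hw ?_
        rcases hb with rfl | ⟨w', -, -, rfl⟩ | ⟨rfl, -⟩
        · exact Ideal.pow_le_self (by norm_num) hev
        · exact (Ideal.mul_le_left (I := w.asIdeal) (J := w'.asIdeal)) hev
        · exact hev
      have h5 : ((finrank ℚ K : ℝ) * s - δ) * Real.log B < lN v := by
        unfold lN
        rw [← Real.log_rpow hB0]
        exact Real.log_lt_log (by positivity) hbig
      have h6 : lN v ≤ ∑ v ∈ W, lN v :=
        Finset.single_le_sum (f := fun v => lN v) (fun v _ => lN_nonneg v) hvW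
      have h7 : ((finrank ℚ K : ℝ) * s - δ) * Real.log B <
          ((s - κ) * finrank ℚ K) * Real.log B := by
        calc _ < _ := h5.trans_le (h6.trans hsum)
          _ = _ := by ring
      have h8 := lt_of_mul_lt_mul_right h7 hlB.le
      nlinarith
    · push Not at hbig
      have hlarge : ∀ v ∉ Bad, NS a θ c v → (Ideal.absNorm v.asIdeal : ℝ) ≤ (B : ℝ) ^ δ := by
        intro v hv hNS
        by_contra h
        push Not at h
        exact hc4 ⟨hcB, v, hs2 v hv, h.le, hbig v hv hNS, hNS⟩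
      have hsmall : ∀ F : Finset (HeightOneSpectrum (𝓞 L)), (∀ w ∈ F, bl (K := K) w ∉ Bad ∧
          (Ideal.absNorm (bl (K := K) w).asIdeal : ℝ) ≤ (B : ℝ) ^ δ ∧ NS a θ c (bl (K := K) w)) →
          ∀ e : HeightOneSpectrum (𝓞 L) → ℕ, (∀ w ∈ F, ev a θ c ∈ w.asIdeal ^ e w) →
            ∑ w ∈ F, e w * lN w < η * Real.log B := by
        intro F hF e he
        by_contra h
        push Not at h
        refine hc3 ⟨hcB, F, fun w hw => ?_, e, he, h⟩
        obtain ⟨h5, h6, h7⟩ := hF w hw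
        exact ⟨bl w, hs3 _ h5, bl_over w, h6.trans (rpow_le_rpow_nat hB1 (min_le_left _ _)), h7⟩
      have hfin := key θ a r c Bad W hW WB hWBm B hB2 η δ hη0 hlow hbad hsmall hlarge
      have h5 : (kn * (1 - η) - (WB.card + 1) * η) * Real.log B ≤
          ((s - κ) * finrank ℚ K) * Real.log B := by
        calc _ ≤ _ := hfin.trans hsum
          _ = _ := by ring
      have h7 := le_of_mul_le_mul_right h5 hlB
      have h8 : (s : ℝ) * finrank ℚ K ≤ kn := by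
        rw [hkn', mul_comm]
        exact mul_le_mul_of_nonneg_left hsk (by linarith)
      nlinarith

theorem core2_holds : StmCore2 :=
  core2 Pool.Agent.N147.DR.typ (Pool.Agent.N530.DR.t Pool.Agent.N147.DR.t Pool.Agent.N147.DR.typ)
    small Pool.Agent.N262.DR.places

end Pool.Agent.J6H73.SB
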