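import Mathlib
import Pool.Agent.N753.DR.Stm2
import Pool.Agent.N340.DR.Comb
import Pool.Agent.N97.DR.Core
import Pool.Agent.N262.DR.Box
import Pool.Agent.N787.PC.Gcd

/-!
# CV/SMALLB, first part: counting in the residue classes modulo powerful numbers
-/

set_option autoImplicit false
set_option linter.unusedSectionVars false

namespace Pool.Agent.J6H73.SB

open NumberField IsDedekindDomain Module Pool.Agent.N753.DR Pool.Agent.N97.DR.Core

section

variable {K L : Type} [Field K] [NumberField K] [Field L] [NumberField L] [Algebra K L]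

/-- the primes of `L` above a rational prime -/
theorem above_fin (L : Type) [Field L] [NumberField L] {p : ℕ} (hp : p.Prime) :
    {w : HeightOneSpectrum (𝓞 L) | (p : 𝓞 L) ∈ w.asIdeal}.Finite ∧
      {w : HeightOneSpectrum (𝓞 L) | (p : 𝓞 L) ∈ w.asIdeal}.ncard ≤ finrank ℚ L := by
  classical
  have hp0 : (Ideal.span {(p : ℤ)}) ≠ ⊥ := by
    rw [Ne, Ideal.span_singleton_eq_bot]
    exact_mod_cast hp.ne_zero
  have hpp : (Ideal.span {(p : ℤ)}).IsPrime := by
    rw [Ideal.span_singleton_prime (by exact_mod_cast hp.ne_zero)]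
    exact Nat.prime_iff_prime_int.1 hp
  have hmax : (Ideal.span {(p : ℤ)}).IsMaximal := hpp.isMaximal hp0
  set W := IsDedekindDomain.primesOverFinset (Ideal.span {(p : ℤ)}) (𝓞 L) with hW
  have hWcard : W.card ≤ finrank ℚ L :=
    Ideal.card_primesOverFinset_le_finrank (𝓞 L) ℚ L hp0
  have hmaps : ∀ w : HeightOneSpectrum (𝓞 L), (p : 𝓞 L) ∈ w.asIdeal → w.asIdeal ∈ W := by
    intro w hw
    rw [IsDedekindDomain.mem_primesOverFinset_iff hp0]
    refine ⟨w.isPrime, ⟨?_⟩⟩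
    refine hmax.eq_of_le (w.isPrime.under ℤ).ne_top ?_
    rw [Ideal.span_singleton_le_iff_mem, Ideal.under_def, Ideal.mem_comap]
    simpa using hw
  have hinj : Set.InjOn (fun w : HeightOneSpectrum (𝓞 L) => w.asIdeal)
      {w : HeightOneSpectrum (𝓞 L) | (p : 𝓞 L) ∈ w.asIdeal} :=
    fun v _ w _ h => HeightOneSpectrum.ext h
  have hfin : {w : HeightOneSpectrum (𝓞 L) | (p : 𝓞 L) ∈ w.asIdeal}.Finite :=
    Set.Finite.of_finite_image ((Finset.finite_toSet W).subset (by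
      rintro _ ⟨w, hw, rfl⟩
      exact hmaps w hw)) hinj
  refine ⟨hfin, ?_⟩
  refine le_trans ?_ hWcard
  rw [← Set.ncard_coe_finset W]
  exact Set.ncard_le_ncard_of_injOn (fun w : HeightOneSpectrum (𝓞 L) => w.asIdeal) hmaps hinj
    (Finset.finite_toSet W)

theorem exists_below (w : HeightOneSpectrum (𝓞 L)) : ∃ p : ℕ, p.Prime ∧ (p : 𝓞 L) ∈ w.asIdeal := by
  have h0 : Ideal.absNorm w.asIdeal ≠ 0 := by
    rw [Ne, Ideal.absNorm_eq_zero_iff]; exact w.ne_bot
  have h1 : ((Ideal.absNorm w.asIdeal : ℕ) : 𝓞 L) ∈ w.asIdeal := Ideal.absNorm_mem _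
  have key : ∀ n : ℕ, n ≠ 0 → (n : 𝓞 L) ∈ w.asIdeal → ∃ p : ℕ, p.Prime ∧ (p : 𝓞 L) ∈ w.asIdeal := by
    intro n
    induction n using Nat.strong_induction_on with
    | _ n ih =>
      intro hn hw
      have hn1 : n ≠ 1 := by
        rintro rfl
        rw [Nat.cast_one] at hw
        exact w.isPrime.ne_top ((Ideal.eq_top_iff_one _).2 hw)
      have hp := Nat.minFac_prime hn1
      obtain ⟨k, hk⟩ := Nat.minFac_dvd n
      have hk0 : k ≠ 0 := by
        rintro rfl
        rw [mul_zero] at hk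
        exact hn hk
      have hw' : ((n.minFac : ℕ) : 𝓞 L) * (k : 𝓞 L) ∈ w.asIdeal := by
        rw [← Nat.cast_mul, ← hk]
        exact hw
      rcases w.isPrime.mem_or_mem hw' with h | h
      · exact ⟨_, hp, h⟩
      · refine ih k ?_ hk0 h
        have h2 := hp.two_le
        have h3 : 0 < k := Nat.pos_of_ne_zero hk0
        calc k < 2 * k := by omega
          _ ≤ n.minFac * k := Nat.mul_le_mul_right _ h2
          _ = n := hk.symm
  exact key _ h0 h1

theorem lN_le {w : HeightOneSpectrum (𝓞 L)} {p : ℕ} (hp : p.Prime) (h : (p : 𝓞 L) ∈ w.asIdeal) :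
    lN w ≤ finrank ℚ L * Real.log p := by
  have h1 : Ideal.absNorm w.asIdeal ∣ Ideal.absNorm (Ideal.span {(p : 𝓞 L)}) :=
    Ideal.absNorm_dvd_absNorm_of_le ((Ideal.span_singleton_le_iff_mem _).2 h)
  have h2 : Ideal.absNorm (Ideal.span {(p : 𝓞 L)}) = p ^ finrank ℚ L := by
    rw [Ideal.absNorm_span_singleton]
    have h3 : ((p : ℕ) : 𝓞 L) = algebraMap ℤ (𝓞 L) (p : ℤ) := by simp
    rw [h3, Algebra.norm_algebraMap, RingOfIntegers.rank]
    simp [Int.natAbs_pow]
  have h3 : p ^ finrank ℚ L ≠ 0 := pow_ne_zero _ hp.ne_zero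
  have h4 : Ideal.absNorm w.asIdeal ≤ p ^ finrank ℚ L := by
    rw [← h2]
    exact Nat.le_of_dvd (by rw [h2]; exact Nat.pos_of_ne_zero h3) h1
  have h5 : Ideal.absNorm w.asIdeal ≠ 0 := by
    rw [Ne, Ideal.absNorm_eq_zero_iff]; exact w.ne_bot
  unfold lN
  calc Real.log (Ideal.absNorm w.asIdeal) ≤ Real.log ((p ^ finrank ℚ L : ℕ) : ℝ) :=
        Real.log_le_log (by exact_mod_cast Nat.pos_of_ne_zero h5) (by exact_mod_cast h4)
    _ = _ := by rw [Nat.cast_pow, Real.log_pow]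

/-- the property of `c` at the prime `p`, of exponent `k` -/
def Pr (Bad : Finset (HeightOneSpectrum (𝓞 K))) {m : ℕ} (β : Fin m → 𝓞 L) (p k : ℕ)
    (c : Fin m → 𝓞 K) : Prop :=
  2 ≤ k ∧ ∃ w w' : HeightOneSpectrum (𝓞 L), (p : 𝓞 L) ∈ w.asIdeal ∧ (p : 𝓞 L) ∈ w'.asIdeal ∧
    bl (K := K) w ∉ Bad ∧ bl (K := K) w' = bl w ∧
    (evB K β c ∈ w.asIdeal ^ k ∨ (k = 2 ∧ evB K β c ∈ w.asIdeal ∧ evB K β c ∈ w'.asIdeal ∧
      (w' ≠ w ∨ Ideal.absNorm (bl (K := K) w).asIdeal < Ideal.absNorm w.asIdeal)))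

theorem Pr.down {Bad : Finset (HeightOneSpectrum (𝓞 K))} {m : ℕ} {β : Fin m → 𝓞 L} {p k : ℕ}
    {c : Fin m → 𝓞 K} (h : Pr Bad β p (k + 1) c) (hk : 2 ≤ k) : Pr Bad β p k c := by
  obtain ⟨-, w, w', h1, h2, h3, h4, h5⟩ := h
  refine ⟨hk, w, w', h1, h2, h3, h4, Or.inl ?_⟩
  rcases h5 with h5 | ⟨h5, -⟩
  · exact Ideal.pow_le_pow_right (Nat.le_succ k) h5
  · omega

/-- the translations -/
noncomputable def tr {m : ℕ} (i0 i1 : Fin m) (x : ℕ × ℕ) : Fin m → 𝓞 K :=
  Pi.single i0 (x.1 : 𝓞 K) + Pi.single i1 (x.2 : 𝓞 K)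

theorem evB_single' {m : ℕ} (β : Fin m → 𝓞 L) (i0 : Fin m) (z : 𝓞 K) :
    evB K β (Pi.single i0 z) = algebraMap (𝓞 K) (𝓞 L) z * β i0 := by
  change (∑ i, algebraMap (𝓞 K) (𝓞 L) ((Pi.single i0 z : Fin m → 𝓞 K) i) * β i) = _
  rw [Finset.sum_eq_single i0]
  · rw [Pi.single_eq_same]
  · intro i _ hi
    rw [Pi.single_eq_of_ne hi, map_zero, zero_mul]
  · intro h
    exact absurd (Finset.mem_univ _) h

theorem ev_tr {m : ℕ} (β : Fin m → 𝓞 L) (i0 i1 : Fin m) (Q : Fin m → 𝓞 K) (x : ℕ × ℕ) :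
    evB K β (Q + tr i0 i1 x) = evB K β Q + ((x.1 : 𝓞 L) * β i0 + (x.2 : 𝓞 L) * β i1) := by
  unfold tr
  rw [map_add, map_add, evB_single', evB_single', map_natCast, map_natCast]

theorem Pr.periodic {Bad : Finset (HeightOneSpectrum (𝓞 K))} {m : ℕ} {β : Fin m → 𝓞 L}
    {i0 i1 : Fin m} {Q : Fin m → 𝓞 K} {p k : ℕ} {x : ℕ × ℕ}
    (h : Pr Bad β p k (Q + tr i0 i1 x)) :
    Pr Bad β p k (Q + tr i0 i1 (x.1 % p ^ k, x.2 % p ^ k)) := by
  obtain ⟨h0, w, w', h1, h2, h3, h4, h5⟩ := h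
  have key : ∀ u : HeightOneSpectrum (𝓞 L), (p : 𝓞 L) ∈ u.asIdeal → ∀ j : ℕ, j ≤ k →
      evB K β (Q + tr i0 i1 x) ∈ u.asIdeal ^ j →
      evB K β (Q + tr i0 i1 (x.1 % p ^ k, x.2 % p ^ k)) ∈ u.asIdeal ^ j := by
    intro u hu j hj hx
    rw [ev_tr] at hx ⊢
    have e1 : (x.1 : 𝓞 L) = ((x.1 % p ^ k : ℕ) : 𝓞 L) + (p : 𝓞 L) ^ k * ((x.1 / p ^ k : ℕ) : 𝓞 L) := by
      have := congrArg (Nat.cast : ℕ → 𝓞 L) (Nat.mod_add_div x.1 (p ^ k)).symm
      push_cast at this
      exact this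
    have e2 : (x.2 : 𝓞 L) = ((x.2 % p ^ k : ℕ) : 𝓞 L) + (p : 𝓞 L) ^ k * ((x.2 / p ^ k : ℕ) : 𝓞 L) := by
      have := congrArg (Nat.cast : ℕ → 𝓞 L) (Nat.mod_add_div x.2 (p ^ k)).symm
      push_cast at this
      exact this
    have h6 : (p : 𝓞 L) ^ k ∈ u.asIdeal ^ j :=
      Ideal.pow_le_pow_right hj (Ideal.pow_mem_pow hu k)
    have e3 : evB K β Q + (((x.1 % p ^ k : ℕ) : 𝓞 L) * β i0 + ((x.2 % p ^ k : ℕ) : 𝓞 L) * β i1) =
        (evB K β Q + ((x.1 : 𝓞 L) * β i0 + (x.2 : 𝓞 L) * β i1)) -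
          (((x.1 / p ^ k : ℕ) : 𝓞 L) * β i0 + ((x.2 / p ^ k : ℕ) : 𝓞 L) * β i1) * (p : 𝓞 L) ^ k := by
      conv_rhs => rw [e1, e2]
      ring
    simp only
    rw [e3]
    exact sub_mem hx (Ideal.mul_mem_left _ _ h6)
  refine ⟨h0, w, w', h1, h2, h3, h4, ?_⟩
  rcases h5 with h5 | ⟨hk2, h5, h6, h7⟩
  · exact Or.inl (key w h1 k le_rfl h5)
  · refine Or.inr ⟨hk2, ?_, ?_, h7⟩
    · have := key w h1 1 (by omega) (by rwa [pow_one])
      rwa [pow_one] at this
    · have := key w' h2 1 (by omega) (by rwa [pow_one])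
      rwa [pow_one] at this

/-- what is used about the good primes -/
structure Good {m : ℕ} (β : Fin m → 𝓞 L) (i0 i1 : Fin m) (v : HeightOneSpectrum (𝓞 K)) :
    Prop where
  unit : ∀ w : HeightOneSpectrum (𝓞 L), w.asIdeal.LiesOver v.asIdeal → β i0 ∉ w.asIdeal
  unr : ∀ w : HeightOneSpectrum (𝓞 L), w.asIdeal.LiesOver v.asIdeal → ∀ (e : ℕ) (c : 𝓞 K),
      algebraMap (𝓞 K) (𝓞 L) c ∈ w.asIdeal ^ e → c ∈ v.asIdeal ^ e
  unr' : ∀ p : ℕ, p.Prime → (p : 𝓞 K) ∈ v.asIdeal → ∀ (e : ℕ) (m : ℤ),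
      (m : 𝓞 K) ∈ v.asIdeal ^ e → (p : ℤ) ^ e ∣ m
  ind : ∀ w : HeightOneSpectrum (𝓞 L), w.asIdeal.LiesOver v.asIdeal → ∀ c0 c1 : 𝓞 K,
      algebraMap (𝓞 K) (𝓞 L) c0 * β i0 + algebraMap (𝓞 K) (𝓞 L) c1 * β i1 ∈ w.asIdeal →
      (Ideal.absNorm v.asIdeal < Ideal.absNorm w.asIdeal ∨
        ∃ w' : HeightOneSpectrum (𝓞 L), w'.asIdeal.LiesOver v.asIdeal ∧ w' ≠ w ∧
          algebraMap (𝓞 K) (𝓞 L) c0 * β i0 + algebraMap (𝓞 K) (𝓞 L) c1 * β i1 ∈ w'.asIdeal) →
      c0 ∈ v.asIdeal ∧ c1 ∈ v.asIdeal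

omit [NumberField K] [NumberField L] in
theorem mem_bl {w : HeightOneSpectrum (𝓞 L)} {p : ℕ} (h : (p : 𝓞 L) ∈ w.asIdeal) :
    (p : 𝓞 K) ∈ (bl (K := K) w).asIdeal := by
  show (p : 𝓞 K) ∈ w.asIdeal.comap (algebraMap (𝓞 K) (𝓞 L))
  rw [Ideal.mem_comap, map_natCast]
  exact h

theorem small_eq {p k a b : ℕ} (ha : a < p ^ k) (hb : b < p ^ k)
    (h : (p : ℤ) ^ k ∣ (a : ℤ) - b) : a = b := by
  have h1 : a ≡ b [MOD p ^ k] := by
    rw [Nat.modEq_iff_dvd]
    push_cast
    have := (dvd_neg (a := (p : ℤ) ^ k)).2 h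
    rwa [neg_sub] at this
  exact h1.eq_of_lt_of_lt ha hb

/-- the number of the translations for one pair of primes -/
theorem pair_count {m : ℕ} {β : Fin m → 𝓞 L} {i0 i1 : Fin m} (Q : Fin m → 𝓞 K) {p k : ℕ}
    (hp : p.Prime) (hk : 2 ≤ k) (w w' : HeightOneSpectrum (𝓞 L)) (hw : (p : 𝓞 L) ∈ w.asIdeal)
    (hbl : bl (K := K) w' = bl w) (hG : Good β i0 i1 (bl (K := K) w)) (s : Finset (ℕ × ℕ))
    (hs : ∀ x ∈ s, x.1 < p ^ k ∧ x.2 < p ^ k ∧ (evB K β (Q + tr i0 i1 x) ∈ w.asIdeal ^ k ∨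
      (k = 2 ∧ evB K β (Q + tr i0 i1 x) ∈ w.asIdeal ∧ evB K β (Q + tr i0 i1 x) ∈ w'.asIdeal ∧
        (w' ≠ w ∨ Ideal.absNorm (bl (K := K) w).asIdeal < Ideal.absNorm w.asIdeal)))) :
    s.card ≤ 2 * p ^ k := by
  classical
  have hover := bl_over (K := K) w
  have hover' : w'.asIdeal.LiesOver (bl (K := K) w).asIdeal := by
    rw [← hbl]; exact bl_over (K := K) w'
  have hpK : (p : 𝓞 K) ∈ (bl (K := K) w).asIdeal := mem_bl hw
  -- first part
  have h1 : (s.filter fun x => evB K β (Q + tr i0 i1 x) ∈ w.asIdeal ^ k).card ≤ p ^ k := by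
    calc (s.filter fun x => evB K β (Q + tr i0 i1 x) ∈ w.asIdeal ^ k).card ≤
          (Finset.range (p ^ k)).card := by
          refine Finset.card_le_card_of_injOn (fun x => x.2) ?_ ?_
          · intro x hx
            rw [Finset.mem_coe, Finset.mem_filter] at hx
            rw [Finset.mem_coe, Finset.mem_range]
            exact (hs x hx.1).2.1
          · rintro ⟨a, b⟩ hx ⟨a', b'⟩ hx' hxx
            rw [Finset.mem_coe, Finset.mem_filter] at hx hx'
            simp only at hxx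
            subst hxx
            have h2 := sub_mem hx.2 hx'.2
            rw [ev_tr, ev_tr] at h2
            have e1 : evB K β Q + ((a : 𝓞 L) * β i0 + (b : 𝓞 L) * β i1) -
                (evB K β Q + ((a' : 𝓞 L) * β i0 + (b : 𝓞 L) * β i1)) =
                algebraMap (𝓞 K) (𝓞 L) (((a : ℤ) - a' : ℤ) : 𝓞 K) * β i0 := by
              rw [map_intCast]
              push_cast
              ring
            simp only at h2
            rw [e1] at h2
            have := w.isPrime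
            rw [mul_comm] at h2
            rcases Ideal.IsPrime.mul_mem_pow w.asIdeal h2 with h3 | h3
            · exact absurd h3 (hG.unit w hover)
            · have h4 := hG.unr' p hp hpK k _ (hG.unr w hover k _ h3)
              have h5 := small_eq (hs _ hx.1).1 (hs _ hx'.1).1 h4
              simp only at h5
              rw [h5]
      _ = p ^ k := Finset.card_range _
  -- second part
  have h2 : (s.filter fun x => ¬ evB K β (Q + tr i0 i1 x) ∈ w.asIdeal ^ k).card ≤ p ^ k := by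
    rcases eq_or_ne k 2 with rfl | hk2
    · have hpp : 0 < p := hp.pos
      calc (s.filter fun x => ¬ evB K β (Q + tr i0 i1 x) ∈ w.asIdeal ^ 2).card ≤
            (Finset.range p ×ˢ Finset.range p).card := by
            refine Finset.card_le_card_of_injOn (fun x => (x.1 / p, x.2 / p)) ?_ ?_
            · intro x hx
              rw [Finset.mem_coe, Finset.mem_filter] at hx
              have h3 := hs x hx.1
              rw [Finset.mem_coe, Finset.mem_product, Finset.mem_range, Finset.mem_range]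
              refine ⟨Nat.div_lt_of_lt_mul ?_, Nat.div_lt_of_lt_mul ?_⟩
              · have := h3.1; rwa [sq] at this
              · have := h3.2.1; rwa [sq] at this
            · rintro ⟨a, b⟩ hx ⟨a', b'⟩ hx' hxx
              rw [Finset.mem_coe, Finset.mem_filter] at hx hx'
              obtain ⟨ha, hb, hor⟩ := hs _ hx.1
              obtain ⟨ha', hb', hor'⟩ := hs _ hx'.1
              rcases hor with hor | ⟨-, h3, h4, h5⟩
              · exact absurd hor hx.2
              rcases hor' with hor' | ⟨-, h3', h4', h5'⟩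
              · exact absurd hor' hx'.2
              have e1 : evB K β Q + ((a : 𝓞 L) * β i0 + (b : 𝓞 L) * β i1) -
                  (evB K β Q + ((a' : 𝓞 L) * β i0 + (b' : 𝓞 L) * β i1)) =
                  algebraMap (𝓞 K) (𝓞 L) (((a : ℤ) - a' : ℤ) : 𝓞 K) * β i0 +
                    algebraMap (𝓞 K) (𝓞 L) (((b : ℤ) - b' : ℤ) : 𝓞 K) * β i1 := by
                rw [map_intCast, map_intCast]
                push_cast
                ring
              have h6 := sub_mem h3 h3'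
              have h7 := sub_mem h4 h4'
              rw [ev_tr, ev_tr] at h6 h7
              simp only at h6 h7
              rw [e1] at h6 h7
              obtain ⟨h8, h9⟩ := hG.ind w hover _ _ h6 (by
                rcases h5 with h5 | h5
                · exact Or.inr ⟨w', hover', h5, h7⟩
                · exact Or.inl h5)
              have h10 := hG.unr' p hp hpK 1 _ (by rw [pow_one]; exact h8)
              have h11 := hG.unr' p hp hpK 1 _ (by rw [pow_one]; exact h9)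
              rw [pow_one] at h10 h11
              have h12 : a % p = a' % p := by
                have : a ≡ a' [MOD p] := by
                  rw [Nat.modEq_iff_dvd]
                  have := (dvd_neg (a := (p : ℤ))).2 h10
                  rwa [neg_sub] at this
                exact this
              have h13 : b % p = b' % p := by
                have : b ≡ b' [MOD p] := by
                  rw [Nat.modEq_iff_dvd]
                  have := (dvd_neg (a := (p : ℤ))).2 h11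
                  rwa [neg_sub] at this
                exact this
              simp only [Prod.mk.injEq] at hxx
              rw [Prod.mk.injEq]
              refine ⟨?_, ?_⟩
              · rw [← Nat.mod_add_div a p, ← Nat.mod_add_div a' p, h12, hxx.1]
              · rw [← Nat.mod_add_div b p, ← Nat.mod_add_div b' p, h13, hxx.2]
        _ = p ^ 2 := by rw [Finset.card_product, Finset.card_range, sq]
    · have : s.filter (fun x => ¬ evB K β (Q + tr i0 i1 x) ∈ w.asIdeal ^ k) = ∅ := by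
        rw [Finset.filter_eq_empty_iff]
        intro x hx
        obtain ⟨-, -, h3 | ⟨h3, -⟩⟩ := hs x hx
        · exact fun h => h h3
        · exact absurd h3 hk2
      rw [this, Finset.card_empty]
      exact Nat.zero_le _
  have h3 := Finset.card_filter_add_card_filter_not
    (s := s) (fun x => evB K β (Q + tr i0 i1 x) ∈ w.asIdeal ^ k)
  omega

open Classical in
/-- the number of the translations at a prime -/
theorem prime_count {Bad : Finset (HeightOneSpectrum (𝓞 K))} {m : ℕ} {β : Fin m → 𝓞 L}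
    {i0 i1 : Fin m} (hG : ∀ v ∉ Bad, Good (L := L) β i0 i1 v) (Q : Fin m → 𝓞 K) {p k : ℕ}
    (hp : p.Prime) :
    ((Finset.range (p ^ k) ×ˢ Finset.range (p ^ k)).filter
      fun x => Pr Bad β p k (Q + tr i0 i1 x)).card ≤ 2 * finrank ℚ L ^ 2 * p ^ k := by
  rcases lt_or_ge k 2 with hk | hk
  · have : (Finset.range (p ^ k) ×ˢ Finset.range (p ^ k)).filter
      (fun x => Pr Bad β p k (Q + tr i0 i1 x)) = ∅ := by
      rw [Finset.filter_eq_empty_iff]
      intro x _ h
      have := h.1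
      omega
    rw [this, Finset.card_empty]
    exact Nat.zero_le _
  obtain ⟨hfin, hcard⟩ := above_fin L hp
  set A := hfin.toFinset with hA
  have hAcard : A.card ≤ finrank ℚ L := by
    rw [hA, ← Set.ncard_eq_toFinset_card _ hfin]
    exact hcard
  have hAm : ∀ w : HeightOneSpectrum (𝓞 L), w ∈ A ↔ (p : 𝓞 L) ∈ w.asIdeal := by
    intro w; rw [hA, Set.Finite.mem_toFinset]; rfl
  set F : HeightOneSpectrum (𝓞 L) × HeightOneSpectrum (𝓞 L) → Finset (ℕ × ℕ) := fun u =>
    (Finset.range (p ^ k) ×ˢ Finset.range (p ^ k)).filter fun x =>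
      bl (K := K) u.1 ∉ Bad ∧ bl (K := K) u.2 = bl u.1 ∧
      (evB K β (Q + tr i0 i1 x) ∈ u.1.asIdeal ^ k ∨
      (k = 2 ∧ evB K β (Q + tr i0 i1 x) ∈ u.1.asIdeal ∧
        evB K β (Q + tr i0 i1 x) ∈ u.2.asIdeal ∧
        (u.2 ≠ u.1 ∨ Ideal.absNorm (bl (K := K) u.1).asIdeal < Ideal.absNorm u.1.asIdeal)))
    with hF
  have hsub : ((Finset.range (p ^ k) ×ˢ Finset.range (p ^ k)).filter
      fun x => Pr Bad β p k (Q + tr i0 i1 x)) ⊆ (A ×ˢ A).biUnion F := by
    intro x hx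
    rw [Finset.mem_filter] at hx
    obtain ⟨hx0, -, w, w', h1, h2, h3, h4, h5⟩ := hx
    rw [Finset.mem_biUnion]
    refine ⟨(w, w'), Finset.mem_product.2 ⟨(hAm w).2 h1, (hAm w').2 h2⟩, ?_⟩
    rw [hF, Finset.mem_filter]
    exact ⟨hx0, h3, h4, h5⟩
  have hone : ∀ u ∈ A ×ˢ A, (F u).card ≤ 2 * p ^ k := by
    rintro ⟨w, w'⟩ hu
    rw [Finset.mem_product] at hu
    by_cases hb : bl (K := K) w ∉ Bad ∧ bl (K := K) w' = bl w
    · refine pair_count Q hp hk w w' ((hAm w).1 hu.1) hb.2 (hG _ hb.1) _ ?_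
      intro x hx
      rw [hF, Finset.mem_filter, Finset.mem_product, Finset.mem_range, Finset.mem_range] at hx
      exact ⟨hx.1.1, hx.1.2, hx.2.2.2⟩
    · have : F (w, w') = ∅ := by
        rw [hF, Finset.filter_eq_empty_iff]
        rintro x - ⟨h1, h2, -⟩
        exact hb ⟨h1, h2⟩
      rw [this, Finset.card_empty]
      exact Nat.zero_le _
  calc _ ≤ ((A ×ˢ A).biUnion F).card := Finset.card_le_card hsub
    _ ≤ ∑ u ∈ A ×ˢ A, (F u).card := Finset.card_biUnion_le
    _ ≤ ∑ _u ∈ A ×ˢ A, 2 * p ^ k := Finset.sum_le_sum hone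
    _ = A.card * A.card * (2 * p ^ k) := by rw [Finset.sum_const, Finset.card_product, smul_eq_mul]
    _ ≤ finrank ℚ L * finrank ℚ L * (2 * p ^ k) := by gcongr
    _ = _ := by ring

end

end Pool.Agent.J6H73.SB
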