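import Pool.Agent.J6H73.SB.Core2
import Pool.Agent.N262.DR.Deg
import Pool.Agent.N459.DR.Red
import Pool.Agent.N572.DR.Link
import Pool.Agent.N572.DR.Diag
import Pool.Agent.N572.DR.KE

/-!
# Few numbers of degree `r` have a small truncated counting function: no condition on the degree
-/

set_option autoImplicit false
set_option linter.unusedSectionVars false

namespace Pool.Agent.J6H73.SB

open NumberField IsDedekindDomain Module Polynomial Pool.Agent.N753.DR
open Pool.Agent.N262.DR (exists_field badS_finite gp gp_eq pow_bound sum_under_le over_eq ht_inv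
  Bx_finite)

/-- `min (r + 1) (deg F)` -/
noncomputable def mn {K : Type} [Field K] (r : ℕ) (F : K[X]) : ℕ := min (r + 1) F.natDegree

/-- `p` is the minimal polynomial of a number for which the truncated counting function is less than
`ρ` times the height -/
def BadR {K : Type} [Field K] [NumberField K] (r : ℕ) (S : Finset ℕ) (F : K[X]) (ρ : ℝ)
    (p : K[X]) : Prop :=
  ∃ (M : Type) (_ : Field M) (_ : NumberField M) (_ : Algebra K M) (x : M),
    finrank K M = r ∧ (minpoly K x).natDegree = r ∧ minpoly K x = p ∧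
    ∃ W : Finset (HeightOneSpectrum (𝓞 M)), (∀ w, Near S F x w → w ∈ W) ∧
      ∑ w ∈ W, lN w < ρ * Height.logHeight₁ x

theorem deg2 (h1 : StmCore2) (h2 : StmRed) (h3 : StmLink) (K : Type) [Field K] [NumberField K]
    (r : ℕ) (hr : 1 ≤ r) (S : Finset ℕ) (F : K[X]) (hFm : F.Monic) (hFi : Irreducible F) (κ : ℝ)
    (hκ : 0 < κ) : ∃ ν C : ℝ, 0 < ν ∧ ∀ U : ℝ, 0 ≤ U →
      {p : K[X] | BadR r S F ((mn r F : ℝ) - κ) p ∧ AtH r U p}.Finite ∧
      ({p : K[X] | BadR r S F ((mn r F : ℝ) - κ) p ∧ AtH r U p}.ncard : ℝ) ≤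
        C * Real.exp ((r + 1 - ν) * U) := by
  classical
  rcases le_or_gt (mn r F : ℝ) κ with hdk | hdk
  · refine ⟨1, 0, one_pos, fun U hU => ?_⟩
    have he : {p : K[X] | BadR r S F ((mn r F : ℝ) - κ) p ∧ AtH r U p} = ∅ := by
      rw [Set.eq_empty_iff_forall_notMem]
      rintro p ⟨⟨M, _, _, _, x, -, -, -, W, -, hW⟩, -⟩
      have e1 : 0 ≤ ∑ w ∈ W, lN w := Finset.sum_nonneg fun w _ => Pool.Agent.N262.DR.lN_nonneg w
      have e2 : ((mn r F : ℝ) - κ) * Height.logHeight₁ x ≤ 0 :=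
        mul_nonpos_of_nonpos_of_nonneg (by linarith) (Height.zero_le_logHeight₁ x)
      linarith
    rw [he]
    simp
  obtain ⟨L, _, _, _, θ, a, htop, ha, hfr, hmp⟩ := exists_field F hFm hFi
  obtain ⟨Bad0, hB0⟩ := h1 K L θ a r htop ha hr
  obtain ⟨BadR, C0, hC0, hR⟩ := h2 K r hr
  obtain ⟨BadL, hL⟩ := h3 K L θ a r ha hr
  set BadS := (badS_finite (K := K) S).toFinset with hBadS
  set Bad := Bad0 ∪ BadR ∪ BadL ∪ BadS with hBad
  obtain ⟨ν, C1, hν, hcore⟩ := hB0 Bad (fun v hv => by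
    simp only [hBad, Finset.mem_union]; tauto) κ hκ
  set n : ℝ := (finrank ℚ K : ℝ) with hn
  have hn0 : 0 < n := by
    rw [hn]; exact_mod_cast (Module.finrank_pos : 0 < finrank ℚ K)
  set c0 : ℝ := max C0 1 with hc0
  have hc01 : 1 ≤ c0 := le_max_right _ _
  refine ⟨ν / n, |C1| * (2 * c0) ^ |n * (r + 1) - ν|, by positivity, fun U hU => ?_⟩
  set y : ℝ := Real.exp (U / n) with hy
  have hy1 : 1 ≤ y := Real.one_le_exp (by positivity)
  set B : ℕ := ⌈c0 * y⌉₊ with hB
  have hBl : c0 * y ≤ B := Nat.le_ceil _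
  have hBu : (B : ℝ) ≤ 2 * c0 * y := by
    have := Nat.ceil_lt_add_one (a := c0 * y) (by positivity)
    have : 1 ≤ c0 * y := one_le_mul_of_one_le_of_one_le hc01 hy1
    linarith
  have hyB : y ≤ B := by
    have : 1 * y ≤ c0 * y := mul_le_mul_of_nonneg_right hc01 (by positivity)
    linarith
  have hB1 : 1 ≤ B := by
    have : (1 : ℝ) ≤ B := hy1.trans hyB
    exact_mod_cast this
  have hlog : U ≤ n * Real.log B := by
    have : U / n ≤ Real.log B := by
      rw [← Real.log_exp (U / n)]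
      exact Real.log_le_log (Real.exp_pos _) hyB
    rw [div_le_iff₀ hn0] at this
    linarith
  set E := {c ∈ Bx K (r + 1) B | ∃ W : Finset (HeightOneSpectrum (𝓞 K)),
      (∀ v ∉ Bad, ∀ w : HeightOneSpectrum (𝓞 L), w.asIdeal.LiesOver v.asIdeal →
        ev a θ c ∈ w.asIdeal → v ∈ W) ∧
      ∑ v ∈ W, lN v ≤ ((min (r + 1) (finrank K L) : ℕ) - κ) *
        ((finrank ℚ K : ℝ) * Real.log B)} with hE
  have hEf : E.Finite := (Bx_finite (K := K) (r + 1) B).subset fun c hc => hc.1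
  have hsub : {p : K[X] | J6H73.SB.BadR r S F ((mn r F : ℝ) - κ) p ∧ AtH r U p} ⊆ gp '' E := by
    rintro p ⟨⟨M, _, _, _, x, hM, hx, hxp, W, hW, hWs⟩, ⟨M', _, _, _, x', hM', hx', hxp', hU'⟩⟩
    have hht : Height.logHeight₁ x ≤ U := by
      rw [ht_inv x x' hM hx hM' (hxp.trans hxp'.symm)]
      exact hU'
    obtain ⟨c, l, hl, hcl, hprim, hsz⟩ := hR M x hM hx
    have hxint : IsIntegral K x := by
      have : FiniteDimensional K M := Module.Finite.of_restrictScalars_finite ℚ K M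
      exact IsIntegral.of_finite K x
    refine ⟨c, ⟨?_, ?_⟩, ?_⟩
    · intro j
      have h4 := hsz j
      have h5 : Real.exp (Height.logHeight₁ x / n) ≤ y :=
        Real.exp_le_exp.mpr (div_le_div_of_nonneg_right hht hn0.le)
      have h6 : (sz (c j) : ℝ) ≤ B := by
        refine h4.trans (le_trans ?_ hBl)
        exact mul_le_mul (le_max_left _ _) h5 (Real.exp_pos _).le (by positivity)
      exact_mod_cast h6
    · refine ⟨W.image fun u => HeightOneSpectrum.under (𝓞 K) u, ?_, ?_⟩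
      · intro v hv w hw hev
        have hvR : v ∉ BadR := fun h => hv (by simp only [hBad, Finset.mem_union]; tauto)
        have hvL : v ∉ BadL := fun h => hv (by simp only [hBad, Finset.mem_union]; tauto)
        have hvS : v ∉ BadS := fun h => hv (by simp only [hBad, Finset.mem_union]; tauto)
        obtain ⟨u, hu, hux, huF⟩ := hL M x c l hM hx hl hcl v hvL (hprim v hvR) w hw hev
        rw [hmp] at huF
        have hunder := over_eq hu
        rw [Finset.mem_image]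
        refine ⟨u, hW u ⟨?_, hux, huF⟩, hunder⟩
        intro p hp hp0 hmem
        apply hvS
        rw [hBadS, Set.Finite.mem_toFinset]
        refine ⟨p, hp, hp0, ?_⟩
        rw [← hunder, HeightOneSpectrum.under_asIdeal, Ideal.under_def, Ideal.mem_comap,
          map_natCast]
        exact hmem
      · have h4 : ∑ v ∈ W.image (fun u => HeightOneSpectrum.under (𝓞 K) u), lN v ≤
            ∑ u ∈ W, lN u := sum_under_le W _ fun v hv => Finset.mem_image.mp hv
        refine h4.trans (hWs.le.trans ?_)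
        have hmn : ((min (r + 1) (finrank K L) : ℕ) : ℝ) = mn r F := by
          rw [hfr]; rfl
        rw [hmn]
        exact mul_le_mul_of_nonneg_left (hht.trans hlog) (by linarith)
    · rw [← hxp]
      exact gp_eq (minpoly.monic hxint) hx hl hcl
  have hfin : (gp '' E).Finite := hEf.image _
  refine ⟨hfin.subset hsub, ?_⟩
  have h4 : ({p : K[X] | J6H73.SB.BadR r S F ((mn r F : ℝ) - κ) p ∧ AtH r U p}.ncard : ℝ) ≤
      (E.ncard : ℝ) := by
    exact_mod_cast (Set.ncard_le_ncard hsub hfin).trans (Set.ncard_image_le hEf)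
  refine h4.trans ((hcore B hB1).trans ?_)
  have h5 := pow_bound (c := 2 * c0) (B := B) (y := y) (E := n * (r + 1) - ν) (by linarith)
    (by positivity) hyB hBu
  have h6 : y ^ (n * (r + 1) - ν) = Real.exp ((r + 1 - ν / n) * U) := by
    rw [hy, ← Real.exp_mul]
    congr 1
    field_simp
  rw [h6] at h5
  calc C1 * (B : ℝ) ^ (n * (r + 1) - ν) ≤ |C1| * (B : ℝ) ^ (n * (r + 1) - ν) := by
        gcongr; exact le_abs_self _
    _ ≤ |C1| * ((2 * c0) ^ |n * (r + 1) - ν| * Real.exp ((r + 1 - ν / n) * U)) := by gcongr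
    _ = _ := by ring

/-- **the exceptional set over `K`**, for the zeros of all polynomials -/
theorem ke2 (K : Type) [Field K] [NumberField K] (r : ℕ) (hr : 1 ≤ r) : ∃ E : Set K[X],
  (∀ U : ℝ, 0 ≤ U → {p | p ∈ E ∧ AtH r U p}.Finite ∧
    ({p | p ∈ E ∧ AtH r U p}.ncard : ℝ) ≤ Real.exp ((r + 1) * U - √U)) ∧
  ∀ (S : Finset ℕ) (F : K[X]), F.Monic → Irreducible F →
    ∀ κ : ℝ, 0 < κ → ∃ C : ℝ, ∀ (M : Type) [Field M] [NumberField M] [Algebra K M] (x : M),
      finrank K M = r → (minpoly K x).natDegree = r → minpoly K x ∉ E →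
      ∀ W : Finset (HeightOneSpectrum (𝓞 M)), (∀ w, Near S F x w → w ∈ W) →
        ((mn r F : ℝ) - κ) * Height.logHeight₁ x ≤ ∑ w ∈ W, lN w + C := by
  have hcount := Pool.Agent.N572.DR.KE.countable_pol K
  have hmono : ∀ (U U' : ℝ) (p : K[X]), U ≤ U' → AtH r U p → AtH r U' p := by
    rintro U U' p hUU ⟨M, i1, i2, i3, x, h3, h4, h5, h6⟩
    exact ⟨M, i1, i2, i3, x, h3, h4, h5, h6.trans hUU⟩
  obtain ⟨E, hE1, hE2⟩ := Pool.Agent.N572.DR.Diag.t K[X] (Finset ℕ × K[X] × ℕ)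
    (fun U p => AtH r U p) hmono
    (fun j p => j.2.1.Monic ∧ Irreducible j.2.1 ∧
      BadR r j.1 j.2.1 ((mn r j.2.1 : ℝ) - 1 / ((j.2.2 : ℝ) + 1)) p) ((r : ℝ) + 1)
    (by positivity) (by
    rintro ⟨S, F, i⟩
    by_cases hF : F.Monic ∧ Irreducible F
    · obtain ⟨ν, C, hν, hC⟩ := deg2 core2_holds Pool.Agent.N459.DR.t
        Pool.Agent.N572.DR.Link.t K r hr S F hF.1 hF.2 (1 / ((i : ℝ) + 1)) (by positivity)
      refine ⟨ν, C, hν, fun U hU => ?_⟩
      have he : {p : K[X] | (F.Monic ∧ Irreducible F ∧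
          BadR r S F ((mn r F : ℝ) - 1 / ((i : ℝ) + 1)) p) ∧ AtH r U p} =
          {p : K[X] | BadR r S F ((mn r F : ℝ) - 1 / ((i : ℝ) + 1)) p ∧ AtH r U p} := by
        ext p
        simp only [Set.mem_setOf_eq]
        tauto
      simp only [he]
      exact hC U hU
    · refine ⟨1, 0, one_pos, fun U hU => ?_⟩
      have he : {p : K[X] | (F.Monic ∧ Irreducible F ∧
          BadR r S F ((mn r F : ℝ) - 1 / ((i : ℝ) + 1)) p) ∧ AtH r U p} = ∅ := by
        rw [Set.eq_empty_iff_forall_notMem]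
        rintro p ⟨⟨h3, h4, _⟩, _⟩
        exact hF ⟨h3, h4⟩
      simp only [he]
      simp)
  refine ⟨E, hE1, ?_⟩
  intro S F hF1 hF2 κ hκ
  obtain ⟨i, hi⟩ := exists_nat_one_div_lt hκ
  obtain ⟨U, hU0, hU⟩ := hE2 (S, F, i)
  refine ⟨(mn r F : ℝ) * U, ?_⟩
  intro M _ _ _ x hM hx hxE W hW
  have hht : 0 ≤ Height.logHeight₁ x := Height.zero_le_logHeight₁ x
  have hsum : 0 ≤ ∑ w ∈ W, lN w :=
    Finset.sum_nonneg fun w _ => Pool.Agent.N572.DR.KE.lN_nonneg w
  have hdeg : (0 : ℝ) ≤ (mn r F : ℝ) := Nat.cast_nonneg _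
  rcases lt_or_ge (∑ w ∈ W, lN w) (((mn r F : ℝ) - 1 / ((i : ℝ) + 1)) * Height.logHeight₁ x)
    with hlt | hge
  · have hbad : BadR r S F ((mn r F : ℝ) - 1 / ((i : ℝ) + 1)) (minpoly K x) :=
      ⟨M, inferInstance, inferInstance, inferInstance, x, hM, hx, rfl, W, hW, hlt⟩
    obtain ⟨M', i1, i2, i3, x', h3, h4, h5, h6⟩ := hU (minpoly K x) hxE ⟨hF1, hF2, hbad⟩
    have h7 : Height.logHeight₁ x = Height.logHeight₁ x' :=
      Pool.Agent.N572.DR.Inv.ht_inv x x' (by rw [hx, hM]) (by rw [h4, h3]) h5.symm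
    have h8 : Height.logHeight₁ x ≤ U := h7.trans_le h6
    have h9 : (mn r F : ℝ) * Height.logHeight₁ x ≤ mn r F * U :=
      mul_le_mul_of_nonneg_left h8 hdeg
    nlinarith
  · have h3 : ((mn r F : ℝ) - κ) * Height.logHeight₁ x ≤
        ((mn r F : ℝ) - 1 / ((i : ℝ) + 1)) * Height.logHeight₁ x :=
      mul_le_mul_of_nonneg_right (by linarith) hht
    have h4 : (0 : ℝ) ≤ mn r F * U := mul_nonneg hdeg hU0
    linarith

end Pool.Agent.J6H73.SB
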