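import Pool.Agent.J6H73.SB.Small

/-!
# CV/SMALLB and DR/SMALL: proofs
-/

set_option autoImplicit false
set_option linter.unusedSectionVars false

namespace Pool.Agent.J6H73.SB

open NumberField IsDedekindDomain Module Pool.Agent.N753.DR Pool.Agent.N97.DR.Core
open Pool.Agent.N340.DR (dcount crt pow_rep descend tau_bound sum_bound)

section

variable {K L : Type} [Field K] [NumberField K] [Field L] [NumberField L] [Algebra K L]

theorem Pr_pow {Bad : Finset (HeightOneSpectrum (𝓞 K))} {m : ℕ} {β : Fin m → 𝓞 L} {p k : ℕ}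
    {c : Fin m → 𝓞 K} (hk : 2 ≤ k) (w : HeightOneSpectrum (𝓞 L)) (hp : (p : 𝓞 L) ∈ w.asIdeal)
    (hb : bl (K := K) w ∉ Bad) (h : evB K β c ∈ w.asIdeal ^ k) : Pr Bad β p k c :=
  ⟨hk, w, w, hp, hp, hb, rfl, Or.inl h⟩

theorem bl_eq {w : HeightOneSpectrum (𝓞 L)} {v : HeightOneSpectrum (𝓞 K)}
    (h : w.asIdeal.LiesOver v.asIdeal) : bl (K := K) w = v := by
  apply HeightOneSpectrum.ext
  exact h.over.symm

theorem mem_up {w : HeightOneSpectrum (𝓞 L)} {v : HeightOneSpectrum (𝓞 K)}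
    (h : w.asIdeal.LiesOver v.asIdeal) {p : ℕ} : (p : 𝓞 L) ∈ w.asIdeal ↔ (p : 𝓞 K) ∈ v.asIdeal := by
  have h1 := Pool.Agent.N147.DR.under_mem h (p : 𝓞 K)
  rw [map_natCast] at h1
  exact h1

theorem Pr_two {Bad : Finset (HeightOneSpectrum (𝓞 K))} {m : ℕ} {β : Fin m → 𝓞 L} {p : ℕ}
    {c : Fin m → 𝓞 K} {v : HeightOneSpectrum (𝓞 K)} (hv : v ∉ Bad) (hp : (p : 𝓞 K) ∈ v.asIdeal)
    (h : NSB β c v) : Pr Bad β p 2 c := by
  obtain ⟨b, ⟨w, hw, hb⟩, hev⟩ := h
  have hwp : (p : 𝓞 L) ∈ w.asIdeal := (mem_up hw).2 hp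
  have hwb := bl_eq hw
  rcases hb with rfl | ⟨w', hw', hne, rfl⟩ | ⟨rfl, hN⟩
  · exact Pr_pow le_rfl w hwp (by rw [hwb]; exact hv) hev
  · refine ⟨le_rfl, w, w', hwp, (mem_up hw').2 hp, by rw [hwb]; exact hv, ?_, Or.inr ⟨rfl, ?_, ?_,
      Or.inl hne⟩⟩
    · rw [hwb, bl_eq hw']
    · exact (Ideal.mul_le_left (I := w.asIdeal) (J := w'.asIdeal)) hev
    · exact (Ideal.mul_le_right (I := w.asIdeal) (J := w'.asIdeal)) hev
  · refine ⟨le_rfl, w, w, hwp, hwp, by rw [hwb]; exact hv, rfl, Or.inr ⟨rfl, hev, hev,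
      Or.inr ?_⟩⟩
    rw [hwb]
    exact hN

theorem fact_div {q p j p' : ℕ} (hp : p.Prime) (h : p ^ j ∣ q) :
    (q / p ^ j).factorization p' = q.factorization p' - (if p' = p then j else 0) := by
  rw [Nat.factorization_div h, Finsupp.tsub_apply, Nat.Prime.factorization_pow hp,
    Finsupp.single_apply]
  congr 1
  simp only [eq_comm]

/-- the admissible numbers -/
def Adm (Bad : Finset (HeightOneSpectrum (𝓞 K))) {m : ℕ} (β : Fin m → 𝓞 L) (y : ℝ)
    (c : Fin m → 𝓞 K) (q : ℕ) : Prop :=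
  q ≠ 0 ∧ ∀ p ∈ q.primeFactors, (p : ℝ) ≤ y ∧ Pr Bad β p (q.factorization p) c

theorem adm_step {Bad : Finset (HeightOneSpectrum (𝓞 K))} {m : ℕ} {β : Fin m → 𝓞 L} {y : ℝ}
    {c : Fin m → 𝓞 K} (hy : 1 ≤ y) (q : ℕ) (hq : Adm Bad β y c q) (hq1 : q ≠ 1) :
    ∃ q' d, q = q' * d ∧ Adm Bad β y c q' ∧ 2 ≤ d ∧ (d : ℝ) ≤ y ^ 2 := by
  obtain ⟨hq0, hq⟩ := hq
  set p := q.minFac with hp
  have hpp : p.Prime := Nat.minFac_prime hq1
  have hpq : p ∈ q.primeFactors := by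
    rw [Nat.mem_primeFactors]; exact ⟨hpp, Nat.minFac_dvd q, hq0⟩
  obtain ⟨hpy, hPr⟩ := hq p hpq
  have hk2 : 2 ≤ q.factorization p := hPr.1
  have hdvd : ∀ j, j ≤ q.factorization p → p ^ j ∣ q := fun j hj =>
    (hpp.pow_dvd_iff_le_factorization hq0).2 hj
  -- the general step
  have gen : ∀ j : ℕ, 1 ≤ j → j ≤ q.factorization p →
      (j < q.factorization p → Pr Bad β p (q.factorization p - j) c) →
      q = q / p ^ j * p ^ j ∧ Adm Bad β y c (q / p ^ j) := by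
    intro j hj1 hj hjP
    have h1 := hdvd j hj
    have hq'0 : q / p ^ j ≠ 0 := by
      intro h
      have h2 := Nat.div_mul_cancel h1
      rw [h, zero_mul] at h2
      exact hq0 h2.symm
    refine ⟨(Nat.div_mul_cancel h1).symm, hq'0, ?_⟩
    intro p' hp'
    have hp'P := Nat.prime_of_mem_primeFactors hp'
    have hpos : 0 < (q / p ^ j).factorization p' :=
      hp'P.factorization_pos_of_dvd hq'0 (Nat.dvd_of_mem_primeFactors hp')
    have hf := fact_div (p' := p') hpp h1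
    by_cases he : p' = p
    · subst he
      rw [if_pos rfl] at hf
      refine ⟨hpy, ?_⟩
      rw [hf]
      exact hjP (by omega)
    · rw [if_neg he, Nat.sub_zero] at hf
      rw [hf]
      refine hq p' ?_
      rw [Nat.mem_primeFactors]
      refine ⟨hp'P, ?_, hq0⟩
      exact (Nat.dvd_of_mem_primeFactors hp').trans (Nat.div_dvd_of_dvd h1)
  have hp2 := hpp.two_le
  rcases eq_or_lt_of_le hk2 with hk | hk
  · obtain ⟨h1, h2⟩ := gen 2 (by norm_num) hk2 (fun h => by omega)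
    refine ⟨_, _, h1, h2, ?_, ?_⟩
    · nlinarith
    · push_cast
      exact pow_le_pow_left₀ (Nat.cast_nonneg _) hpy 2
  · obtain ⟨h1, h2⟩ := gen 1 le_rfl (by omega) (fun _ => by
      obtain ⟨t, ht⟩ : ∃ t, q.factorization p = t + 1 := ⟨q.factorization p - 1, by omega⟩
      rw [ht] at hPr hk ⊢
      exact hPr.down (by omega))
    refine ⟨_, _, h1, h2, ?_, ?_⟩
    · rw [pow_one]; exact hp2
    · rw [pow_one]
      refine hpy.trans ?_
      nlinarith

/-- a rational prime below -/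
noncomputable def pr (w : HeightOneSpectrum (𝓞 L)) : ℕ := (exists_below w).choose

theorem pr_prime (w : HeightOneSpectrum (𝓞 L)) : (pr w).Prime := (exists_below w).choose_spec.1

theorem pr_mem (w : HeightOneSpectrum (𝓞 L)) : ((pr w : ℕ) : 𝓞 L) ∈ w.asIdeal :=
  (exists_below w).choose_spec.2

theorem exists_adm {Bad : Finset (HeightOneSpectrum (𝓞 K))} {m : ℕ} {β : Fin m → 𝓞 L} {y : ℝ}
    {c : Fin m → 𝓞 K} (W : Finset (HeightOneSpectrum (𝓞 L)))
    (hW : ∀ w ∈ W, ∃ v ∉ Bad, w.asIdeal.LiesOver v.asIdeal ∧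
        (Ideal.absNorm v.asIdeal : ℝ) ≤ y ∧ NSB β c v)
    (e : HeightOneSpectrum (𝓞 L) → ℕ) (he : ∀ w ∈ W, evB K β c ∈ w.asIdeal ^ e w) :
    ∃ q : ℕ, Adm Bad β y c q ∧ ∑ w ∈ W, e w * lN w ≤ (finrank ℚ L : ℝ) ^ 2 * Real.log q := by
  classical
  set P := W.image pr with hP
  set k : ℕ → ℕ := fun p => max 2 ((W.filter fun w => pr w = p).sup e) with hk
  set f : ℕ →₀ ℕ := Finsupp.onFinset P (fun p => if p ∈ P then k p else 0) (by
    intro p hp
    by_contra h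
    exact hp (if_neg h)) with hf
  have hfp : ∀ p ∈ P, f p = k p := fun p hp => by
    rw [hf, Finsupp.onFinset_apply, if_pos hp]
  have hfs : f.support = P := by
    ext p
    rw [Finsupp.mem_support_iff]
    constructor
    · intro h
      by_contra hp
      apply h
      rw [hf, Finsupp.onFinset_apply, if_neg hp]
    · intro hp
      rw [hfp p hp]
      have : 2 ≤ k p := le_max_left _ _
      omega
  have hPp : ∀ p ∈ P, p.Prime := by
    intro p hp
    obtain ⟨w, -, rfl⟩ := Finset.mem_image.1 hp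
    exact pr_prime w
  set q : ℕ := f.prod (fun p j => p ^ j) with hq
  have hfact : q.factorization = f := Nat.prod_pow_factorization_eq_self (by
    rw [hfs]; exact hPp)
  have hq0 : q ≠ 0 := by
    rw [hq, Finsupp.prod, Finset.prod_ne_zero_iff]
    intro p hp
    rw [hfs] at hp
    exact pow_ne_zero _ (hPp p hp).ne_zero
  have hqP : q.primeFactors = P := by
    rw [← Nat.support_factorization, hfact, hfs]
  refine ⟨q, ⟨hq0, ?_⟩, ?_⟩
  · intro p hp
    rw [hqP] at hp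
    rw [hfact, hfp p hp]
    obtain ⟨w, hw, hwp⟩ := Finset.mem_image.1 hp
    obtain ⟨v, hv, hwv, hNv, hNS⟩ := hW w hw
    have hpv : (p : 𝓞 K) ∈ v.asIdeal := by
      rw [← mem_up hwv, ← hwp]; exact pr_mem w
    refine ⟨?_, ?_⟩
    · have h1 := Pool.Agent.N787.PC.Gcd.dvd_of_mem (hPp p hp) hpv
      have h2 : Ideal.absNorm v.asIdeal ≠ 0 := by
        rw [Ne, Ideal.absNorm_eq_zero_iff]; exact v.ne_bot
      have h3 := Nat.le_of_dvd (Nat.pos_of_ne_zero h2) h1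
      exact le_trans (by exact_mod_cast h3) hNv
    · rcases le_or_gt ((W.filter fun w => pr w = p).sup e) 2 with hle | hgt
      · have : k p = 2 := by rw [hk]; simp only; omega
        rw [this]
        exact Pr_two hv hpv hNS
      · have hkp : k p = (W.filter fun w => pr w = p).sup e := by rw [hk]; simp only; omega
        have hne : (W.filter fun w => pr w = p).Nonempty := ⟨w, by
          rw [Finset.mem_filter]; exact ⟨hw, hwp⟩⟩
        obtain ⟨w₁, hw₁, hsup⟩ := Finset.exists_mem_eq_sup _ hne e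
        rw [Finset.mem_filter] at hw₁
        obtain ⟨v₁, hv₁, hwv₁, -, -⟩ := hW w₁ hw₁.1
        rw [hkp]
        refine Pr_pow (by omega) w₁ (by rw [← hw₁.2]; exact pr_mem w₁) ?_ ?_
        · rw [bl_eq hwv₁]; exact hv₁
        · rw [hsup]; exact he w₁ hw₁.1
  · have hlog : Real.log q = ∑ p ∈ P, (k p : ℝ) * Real.log p := by
      rw [hq, Finsupp.prod, hfs, Nat.cast_prod, Real.log_prod]
      · refine Finset.sum_congr rfl fun p hp => ?_
        rw [hfp p hp, Nat.cast_pow, Real.log_pow]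
      · intro p hp
        have := (hPp p hp).ne_zero
        rw [hfp p hp]
        exact_mod_cast pow_ne_zero _ this
    rw [hlog, Finset.mul_sum]
    rw [← Finset.sum_fiberwise_of_maps_to (s := W) (t := P) (g := pr)
      (fun w hw => Finset.mem_image_of_mem _ hw)]
    refine Finset.sum_le_sum fun p hp => ?_
    have hlp : 0 ≤ Real.log p := Real.log_natCast_nonneg _
    have hD0 : (0 : ℝ) ≤ finrank ℚ L := Nat.cast_nonneg _
    have h1 : ∀ w ∈ W.filter (fun w => pr w = p), (e w : ℝ) * lN w ≤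
        (k p : ℝ) * (finrank ℚ L * Real.log p) := by
      intro w hw
      have h2 : e w ≤ k p := (Finset.le_sup (f := e) hw).trans (le_max_right _ _)
      have h3 : lN w ≤ finrank ℚ L * Real.log p := by
        refine lN_le (hPp p hp) ?_
        rw [← (Finset.mem_filter.1 hw).2]
        exact pr_mem w
      exact mul_le_mul (by exact_mod_cast h2) h3 (lN_nonneg w) (Nat.cast_nonneg _)
    have h4 : ((W.filter fun w => pr w = p).card : ℝ) ≤ finrank ℚ L := by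
      obtain ⟨hfin, hcard⟩ := above_fin L (hPp p hp)
      have h5 : (W.filter fun w => pr w = p).card ≤
          {w : HeightOneSpectrum (𝓞 L) | (p : 𝓞 L) ∈ w.asIdeal}.ncard := by
        rw [← Set.ncard_coe_finset]
        refine Set.ncard_le_ncard ?_ hfin
        intro w hw
        rw [Finset.mem_coe, Finset.mem_filter] at hw
        show (p : 𝓞 L) ∈ w.asIdeal
        rw [← hw.2]
        exact pr_mem w
      exact_mod_cast h5.trans hcard
    calc ∑ w ∈ W.filter (fun w => pr w = p), (e w : ℝ) * lN w ≤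
          ∑ w ∈ W.filter (fun w => pr w = p), (k p : ℝ) * (finrank ℚ L * Real.log p) :=
          Finset.sum_le_sum h1
      _ = (W.filter fun w => pr w = p).card * ((k p : ℝ) * (finrank ℚ L * Real.log p)) := by
          rw [Finset.sum_const, nsmul_eq_mul]
      _ ≤ finrank ℚ L * ((k p : ℝ) * (finrank ℚ L * Real.log p)) :=
          mul_le_mul_of_nonneg_right h4 (by positivity)
      _ = _ := by ring

end

/-- **CV/SMALLB** -/
theorem smallB : StmSmallB := by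
  classical
  intro K L _ _ _ _ _ m β i0 i1 hβ htop
  obtain ⟨Bad, hB⟩ := Pool.Agent.N394.CV.typB K L m β i0 i1 hβ htop
  have hG : ∀ v ∉ Bad, Good (L := L) β i0 i1 v := fun v hv =>
    ⟨(hB v hv).1, (hB v hv).2.1, (hB v hv).2.2.1, (hB v hv).2.2.2.1⟩
  refine ⟨Bad, fun κ hκ => ?_⟩
  have hD : (0 : ℝ) < finrank ℚ L := by exact_mod_cast (finrank_pos : 0 < finrank ℚ L)
  set κ' : ℝ := min (κ / (finrank ℚ L : ℝ) ^ 2) (1 / 2) with hκ'
  have hκ'0 : 0 < κ' := lt_min (by positivity) (by norm_num)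
  have hκ'1 : κ' ≤ 1 / 2 := min_le_right _ _
  have hκ'2 : κ' * (finrank ℚ L : ℝ) ^ 2 ≤ κ := by
    have := min_le_left (κ / (finrank ℚ L : ℝ) ^ 2) (1 / 2)
    rw [le_div_iff₀ (by positivity)] at this
    exact this
  obtain ⟨C, hC, hun⟩ := union_bound (m := m) (β := β) hG
  refine ⟨1 / 8, κ' / 8, C, by norm_num, by positivity, fun B hB1 => ?_⟩
  have hBr : (1 : ℝ) ≤ B := by exact_mod_cast hB1
  have hB0 : (0 : ℝ) < B := by linarith
  set X : ℝ := (B : ℝ) ^ κ' with hX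
  have hX1 : 1 ≤ X := Real.one_le_rpow hBr hκ'0.le
  set y : ℝ := (B : ℝ) ^ (1 / 8 : ℝ) with hy
  have hy1 : 1 ≤ y := Real.one_le_rpow hBr (by norm_num)
  have hXy : X * y ^ 2 ≤ B := by
    have h1 : y ^ 2 = (B : ℝ) ^ (1 / 4 : ℝ) := by
      rw [hy, ← Real.rpow_natCast, ← Real.rpow_mul hB0.le]
      norm_num
    rw [h1, hX, ← Real.rpow_add hB0]
    calc (B : ℝ) ^ (κ' + 1 / 4) ≤ (B : ℝ) ^ (1 : ℝ) :=
          Real.rpow_le_rpow_of_exponent_le hBr (by linarith)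
      _ = B := Real.rpow_one _
  have hsub : {c ∈ Bx K m B | ∃ W : Finset (HeightOneSpectrum (𝓞 L)),
      (∀ w ∈ W, ∃ v ∉ Bad, w.asIdeal.LiesOver v.asIdeal ∧
        (Ideal.absNorm v.asIdeal : ℝ) ≤ (B : ℝ) ^ (1 / 8 : ℝ) ∧ NSB β c v) ∧
      ∃ e : HeightOneSpectrum (𝓞 L) → ℕ, (∀ w ∈ W, evB K β c ∈ w.asIdeal ^ e w) ∧
        κ * Real.log B ≤ ∑ w ∈ W, e w * lN w} ⊆
      {c | ∃ q : ℕ, Powf q ∧ X ≤ q ∧ q ≤ B ∧ c ∈ Sq Bad β B q} := by
    rintro c ⟨hcB, W, hW, e, he, hsum⟩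
    obtain ⟨Q, hQ, hQs⟩ := exists_adm W hW e he
    have hQX : X ≤ Q := by
      have hQ0 : (0 : ℝ) < Q := by exact_mod_cast Nat.pos_of_ne_zero hQ.1
      have h1 : κ' * Real.log B ≤ Real.log Q := by
        have h2 : (κ' * (finrank ℚ L : ℝ) ^ 2) * Real.log B ≤ κ * Real.log B :=
          mul_le_mul_of_nonneg_right hκ'2 (Real.log_nonneg hBr)
        have h3 : (0 : ℝ) < (finrank ℚ L : ℝ) ^ 2 := by positivity
        have h4 : (finrank ℚ L : ℝ) ^ 2 * (κ' * Real.log B) ≤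
            (finrank ℚ L : ℝ) ^ 2 * Real.log Q := by linarith
        exact le_of_mul_le_mul_left h4 h3
      rw [hX, Real.rpow_def_of_pos hB0]
      refine le_trans (Real.exp_le_exp.2 ?_) (Real.exp_log hQ0).le
      rw [mul_comm]
      exact h1
    obtain ⟨q, hq, hXq, hqX⟩ := descend (Adm Bad β y c) hy1 hX1
      (fun q hq hq1 => adm_step hy1 q hq hq1) (fun q hq => hq.1) Q hQ hQX
    refine ⟨q, ⟨hq.1, fun p hp => (hq.2 p hp).2.1⟩, hXq, ?_, hcB, fun p hp => (hq.2 p hp).2⟩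
    exact_mod_cast hqX.trans hXy
  have hfin : {c | ∃ q : ℕ, Powf q ∧ X ≤ q ∧ q ≤ B ∧ c ∈ Sq Bad β B q}.Finite :=
    (Bx_finite (K := K) m B).subset (by
      rintro c ⟨q, -, -, -, hc⟩
      exact hc.1)
  have h1 : ((({c ∈ Bx K m B | ∃ W : Finset (HeightOneSpectrum (𝓞 L)),
      (∀ w ∈ W, ∃ v ∉ Bad, w.asIdeal.LiesOver v.asIdeal ∧
        (Ideal.absNorm v.asIdeal : ℝ) ≤ (B : ℝ) ^ (1 / 8 : ℝ) ∧ NSB β c v) ∧
      ∃ e : HeightOneSpectrum (𝓞 L) → ℕ, (∀ w ∈ W, evB K β c ∈ w.asIdeal ^ e w) ∧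
        κ * Real.log B ≤ ∑ w ∈ W, e w * lN w}).ncard : ℕ) : ℝ) ≤
      ({c | ∃ q : ℕ, Powf q ∧ X ≤ q ∧ q ≤ B ∧ c ∈ Sq Bad β B q}.ncard : ℝ) := by
    exact_mod_cast Set.ncard_le_ncard hsub hfin
  refine h1.trans ((hun B X hX1).trans (le_of_eq ?_))
  rw [hX, ← Real.rpow_mul hB0.le, mul_assoc, ← Real.rpow_natCast, ← Real.rpow_add hB0]
  congr 2
  push_cast
  ring

/-- **DR/SMALL** -/
theorem small : StmSmall := by
  intro K L _ _ _ _ _ θ a r hθ ha hr
  have ha0 : (a : 𝓞 L) ≠ 0 := by exact_mod_cast ha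
  set β : Fin (r + 1) → 𝓞 L := fun i => (a : 𝓞 L) ^ (r - (i : ℕ)) * θ ^ (i : ℕ) with hβ
  have hr1 : 1 < r + 1 := by omega
  have e0 : β ⟨0, Nat.succ_pos r⟩ = (a : 𝓞 L) ^ r := by
    rw [hβ]; simp
  have e1 : β ⟨1, hr1⟩ = (a : 𝓞 L) ^ (r - 1) * θ := by
    rw [hβ]; simp
  have h0 : β ⟨0, Nat.succ_pos r⟩ ≠ 0 := by
    rw [e0]; exact pow_ne_zero _ ha0
  have htop : IntermediateField.adjoin K {(β ⟨1, hr1⟩ : L) / β ⟨0, Nat.succ_pos r⟩} = ⊤ := by
    have haL : (a : L) ≠ 0 := by exact_mod_cast ha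
    have e2 : ((β ⟨1, hr1⟩ : 𝓞 L) : L) / ((β ⟨0, Nat.succ_pos r⟩ : 𝓞 L) : L) = (θ : L) / a := by
      rw [e0, e1]
      push_cast
      obtain ⟨s, rfl⟩ : ∃ s, r = s + 1 := ⟨r - 1, by omega⟩
      rw [Nat.add_sub_cancel, pow_succ]
      field_simp
    rw [e2, eq_top_iff, ← hθ, IntermediateField.adjoin_le_iff, Set.singleton_subset_iff]
    have h3 := IntermediateField.mem_adjoin_simple_self K ((θ : L) / a)
    have h4 := mul_mem h3 (natCast_mem (IntermediateField.adjoin K {(θ : L) / a}) a)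
    rwa [div_mul_cancel₀ _ haL] at h4
  obtain ⟨Bad, h⟩ := smallB K L (r + 1) β ⟨0, Nat.succ_pos r⟩ ⟨1, hr1⟩ h0 htop
  refine ⟨Bad, fun κ hκ => ?_⟩
  obtain ⟨δ, ν, C, hδ, hν, h⟩ := h κ hκ
  refine ⟨δ, ν, C, hδ, hν, fun B hB => ?_⟩
  have h1 := h B hB
  have e3 : ((finrank ℚ K : ℝ) * ((r + 1 : ℕ) : ℝ) - ν) = (finrank ℚ K : ℝ) * (r + 1) - ν := by
    push_cast; ring
  rw [e3] at h1
  exact h1

end Pool.Agent.J6H73.SB
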