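import Pool.Agent.J6H73.SB.LS
import Pool.Agent.N297.CV.MainC
import Pool.Agent.N265.CV.Htc
import Pool.Agent.N572.DR.Diag
import Pool.Agent.N650.CV.FldC
import Pool.Agent.N752.CV.UniC
import Pool.Agent.N752.CV.ZeroC
import Pool.Agent.N776.CV.Sep
import Pool.Agent.N776.CV.VnC
import Pool.Agent.N849.CV.CntC
import Pool.Agent.N490.CV.CoreB
import Pool.Agent.N328.CV.CoreV
import Pool.Agent.N394.CV.TypB
import Pool.Agent.N966.CV.LargeB
import Pool.Agent.N966.CV.PlacesB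
import Pool.Agent.N498.CV.Redc
import Pool.Agent.N488.CV.LinkC
import Pool.Agent.N803.PX.Ex

/-!
# The strong Lang-Silverman alternative at almost all closed points of linear systems on curves
-/

set_option autoImplicit false
set_option linter.unusedSectionVars false

namespace Pool.Agent.J6H73.SB

open NumberField IsDedekindDomain Module Polynomial Height Pool.Agent.N753.DR
open Pool.Agent.N751.LS (StrongAt)
open scoped LinearAlgebra.Projectivization

theorem coreV_holds : StmCoreV :=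
  Pool.Agent.N328.CV.t (Pool.Agent.N490.CV.CoreB.t Pool.Agent.N394.CV.t
    (Pool.Agent.N966.CV.LargeB.t Pool.Agent.N147.DR.t Pool.Agent.N394.CV.t) smallB
    Pool.Agent.N966.CV.PlacesB.t)

theorem mainC_holds : StmMainC :=
  Pool.Agent.N297.CV.MainC.t Pool.Agent.N572.DR.Diag.t
    (Pool.Agent.N849.CVN.cntC coreV_holds Pool.Agent.N488.CV.t Pool.Agent.N498.CV.t)
    Pool.Agent.N265.CV.t Pool.Agent.N752.CV.t (Pool.Agent.N752.CV.t2 Pool.Agent.N498.CV.t)
    (Pool.Agent.N650.CV.FldC.t Pool.Agent.N265.CV.t) Pool.Agent.N776.CV.t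

section

variable {K A : Type} [Field K] [NumberField K] [CommRing A] [IsDomain A] [Algebra K A]
  [Algebra K[X] A] [IsScalarTower K K[X] A] [Module.Finite K[X] A] [FaithfulSMul K[X] A]

/-- the properties of the exceptional set of members of the linear system `V_n` -/
structure ExcC {N : ℕ} (e : Basis (Fin N) K[X] A) (n : ℕ)
    (E : Set (ℙ K (Fin (N * (n + 1)) → K))) : Prop where
  count : ∃ C : ℝ, ∀ U : ℝ, 0 ≤ U → {P | P ∈ E ∧ logHeight P.rep ≤ U}.Finite ∧
    ({P | P ∈ E ∧ logHeight P.rep ≤ U}.ncard : ℝ) ≤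
      C * Real.exp ((N * (n + 1) : ℕ) * U - √U)
  inj : ∀ P P' : ℙ K (Fin (N * (n + 1)) → K), P ∉ E →
    Ideal.span {mem (Vn (K := K) e n) P.rep} = Ideal.span {mem (Vn (K := K) e n) P'.rep} → P = P'
  deg : ∃ D : ℕ, ∀ P : ℙ K (Fin (N * (n + 1)) → K), P ∉ E →
    finrank K (A ⧸ Ideal.span {mem (Vn (K := K) e n) P.rep}) ≤ D
  zeros : ∀ (u : ℕ) (g : Fin u → A), (Ideal.span (Set.range g)).IsMaximal →
    (∃ (L : Type) (_ : Field L) (_ : NumberField L) (_ : Algebra K L) (ψ : A →ₐ[K] L),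
      Function.Surjective ψ ∧ RingHom.ker ψ = Ideal.span (Set.range g) ∧
        finrank K L ≤ 2 * n + 1) →
    ∀ (S : Finset ℕ) (κ : ℝ), 0 < κ → ∃ C : ℝ,
      ∀ (M : Type) [Field M] [NumberField M] [Algebra K M] (φ : A →ₐ[K] M)
        (P : ℙ K (Fin (N * (n + 1)) → K)), P ∉ E → Function.Surjective φ →
        RingHom.ker φ = Ideal.span {mem (Vn (K := K) e n) P.rep} →
        RingHom.ker φ ≠ Ideal.span (Set.range g) →
        ∃ W : Finset (HeightOneSpectrum (𝓞 M)), (∀ w ∈ W, NearC S g φ w) ∧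
          ((finrank K (A ⧸ Ideal.span (Set.range g)) : ℝ) - κ) * logHeight P.rep ≤
            ∑ w ∈ W, lN w + C
  ht : ∃ C : ℝ, ∀ (M : Type) [Field M] [NumberField M] [Algebra K M] (φ : A →ₐ[K] M)
    (P : ℙ K (Fin (N * (n + 1)) → K)), Function.Surjective φ →
    RingHom.ker φ = Ideal.span {mem (Vn (K := K) e n) P.rep} →
    logHeight₁ (φ (algebraMap K[X] A X)) ≤ N * logHeight P.rep + C

theorem exists_excC (hdom : IsDomain (TensorProduct K (AlgebraicClosure K) A)) {N : ℕ}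
    (e : Basis (Fin N) K[X] A) (he : ∃ i, e i = 1) (n : ℕ) (hn : 1 ≤ n) :
    ∃ E : Set (ℙ K (Fin (N * (n + 1)) → K)), ExcC e n E := by
  classical
  have hN : 1 ≤ N := by
    obtain ⟨i, -⟩ := he
    exact Nat.one_le_iff_ne_zero.2 (by rintro rfl; exact i.elim0)
  have hm : 1 ≤ N * (n + 1) := Nat.mul_pos hN (Nat.succ_pos n)
  have hfr : finrank K[X] A = N := by rw [finrank_eq_card_basis e, Fintype.card_fin]
  obtain ⟨c₀, hV⟩ := Pool.Agent.N776.CV.tVnC K A N e he
  obtain ⟨hli, hwide, hdeg⟩ := hV n hn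
  obtain ⟨ee, -, -, hmain⟩ := mainC_holds
  obtain ⟨r, E, -, hcount, hzer, -, hht⟩ := hmain K A hdom (N * (n + 1)) hm (Vn (K := K) e n) hli
  obtain ⟨Q, d, r', hQ0, hQh, hQ1, hQ2⟩ := Pool.Agent.N752.CV.t K A hdom (N * (n + 1)) hm
    (Vn (K := K) e n) hli
  obtain ⟨ν, C1, hν, hC1⟩ := Pool.Agent.N752.CV.t2 Pool.Agent.N498.CV.t K (N * (n + 1)) Q d hQ0 hQh
  refine ⟨E ∪ {P | MvPolynomial.eval P.rep Q = 0}, ?_, ?_, ?_, ?_, ?_⟩
  · obtain ⟨C, hC⟩ := hcount
    -- `exp (-ν U)` is at most a constant times `exp (-√U)`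
    have hexp : ∀ U : ℝ, 0 ≤ U → Real.exp (((N * (n + 1) : ℕ) - ν) * U) ≤
        Real.exp (1 / (4 * ν)) * Real.exp ((N * (n + 1) : ℕ) * U - √U) := by
      intro U hU
      rw [← Real.exp_add, Real.exp_le_exp]
      have h1 : √U ^ 2 = U := Real.sq_sqrt hU
      have h2 : 0 ≤ (2 * ν * √U - 1) ^ 2 := sq_nonneg _
      have h3 : √U ≤ ν * U + 1 / (4 * ν) := by
        rw [← sub_nonneg]
        have e1 : (2 * ν * √U - 1) ^ 2 = 4 * ν ^ 2 * U - 4 * ν * √U + 1 := by
          rw [← h1, Real.sqrt_sq (Real.sqrt_nonneg U)]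
          ring
        have : ν * U + 1 / (4 * ν) - √U = (2 * ν * √U - 1) ^ 2 / (4 * ν) := by
          rw [e1]
          field_simp
          ring
        rw [this]
        positivity
      linarith
    refine ⟨max C 0 + max C1 0 * Real.exp (1 / (4 * ν)), fun U hU => ?_⟩
    obtain ⟨f1, k1⟩ := hC U hU
    obtain ⟨f2, k2⟩ := hC1 U hU
    have hsub : {P | P ∈ E ∪ {P | MvPolynomial.eval P.rep Q = 0} ∧ logHeight P.rep ≤ U} ⊆
        {P : ℙ K (Fin (N * (n + 1)) → K) | P ∈ E ∧ logHeight P.rep ≤ U} ∪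
        {P : ℙ K (Fin (N * (n + 1)) → K) | MvPolynomial.eval P.rep Q = 0 ∧
          logHeight P.rep ≤ U} := by
      rintro P ⟨h1 | h1, h2⟩
      · exact Or.inl ⟨h1, h2⟩
      · exact Or.inr ⟨h1, h2⟩
    have f3 : {P : ℙ K (Fin (N * (n + 1)) → K) | MvPolynomial.eval P.rep Q = 0 ∧
          logHeight P.rep ≤ U}.Finite := f2.subset fun P hP => hP.2
    have f4 := f1.union f3
    refine ⟨f4.subset hsub, ?_⟩
    have h5 : ({P | P ∈ E ∪ {P | MvPolynomial.eval P.rep Q = 0} ∧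
        logHeight P.rep ≤ U}.ncard : ℝ) ≤
        ({P : ℙ K (Fin (N * (n + 1)) → K) | P ∈ E ∧ logHeight P.rep ≤ U}.ncard : ℝ) +
        ({P : ℙ K (Fin (N * (n + 1)) → K) | MvPolynomial.eval P.rep Q = 0 ∧
          logHeight P.rep ≤ U}.ncard : ℝ) := by
      exact_mod_cast (Set.ncard_le_ncard hsub f4).trans (Set.ncard_union_le _ _)
    have h6 := hexp U hU
    have h7 : (0 : ℝ) ≤ Real.exp ((N * (n + 1) : ℕ) * U - √U) := (Real.exp_pos _).le
    have h8 : C * Real.exp ((N * (n + 1) : ℕ) * U - √U) ≤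
        max C 0 * Real.exp ((N * (n + 1) : ℕ) * U - √U) :=
      mul_le_mul_of_nonneg_right (le_max_left _ _) h7
    have h9 : C1 * Real.exp (((N * (n + 1) : ℕ) - ν) * U) ≤
        max C1 0 * (Real.exp (1 / (4 * ν)) * Real.exp ((N * (n + 1) : ℕ) * U - √U)) :=
      (mul_le_mul_of_nonneg_right (le_max_left _ _) (Real.exp_pos _).le).trans
        (mul_le_mul_of_nonneg_left h6 (le_max_right _ _))
    calc _ ≤ _ := h5
      _ ≤ C * Real.exp ((N * (n + 1) : ℕ) * U - √U) +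
          C1 * Real.exp (((N * (n + 1) : ℕ) - ν) * U) := add_le_add k1 k2
      _ ≤ _ := by linarith
  · intro P P' hP hPP
    have hQP : MvPolynomial.eval P.rep Q ≠ 0 := fun h => hP (Or.inr h)
    obtain ⟨l, hl, h⟩ := hQ1 P.rep P'.rep hQP hPP
    rw [← P.mk_rep, ← P'.mk_rep, Projectivization.mk_eq_mk_iff']
    refine ⟨l⁻¹, ?_⟩
    rw [h, smul_smul, inv_mul_cancel₀ hl, one_smul]
  · refine ⟨r', fun P hP => ?_⟩
    exact (hQ2 P.rep fun h => hP (Or.inr h)).le
  · intro u g hmax ⟨L, i1, i2, i3, ψ, hψ, hker, hL⟩ S κ hκ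
    obtain ⟨C, hC⟩ := hzer 1 (fun _ => u) (fun _ => g) (fun _ => hmax)
      (fun i j hij => absurd (Subsingleton.elim i j) hij)
      (fun _ => ⟨L, i1, i2, i3, ψ, hψ, hker, hwide L ψ hψ hL⟩) S κ hκ
    refine ⟨C, fun M _ _ _ φ P hP hφ hk hne => ?_⟩
    obtain ⟨W, hW, hs⟩ := hC M φ P (fun h => hP (Or.inl h)) hφ hk (fun _ => hne)
    refine ⟨W, fun w hw => ?_, ?_⟩
    · obtain ⟨j, hj⟩ := hW w hw
      exact hj
    · simpa using hs
  · obtain ⟨C, hC⟩ := hht
    refine ⟨C, fun M _ _ _ φ P hφ hk => ?_⟩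
    have := hC M φ P hφ hk
    rwa [hfr] at this

/-- only finitely many members outside the exceptional set lie above the zeros of a polynomial -/
theorem bounded_of_root {N : ℕ} {e : Basis (Fin N) K[X] A} {n : ℕ}
    {E : Set (ℙ K (Fin (N * (n + 1)) → K))} (hE : ExcC e n E) (p : K[X]) (hp : p ≠ 0) :
    ∃ C : ℝ, ∀ (M : Type) [Field M] [NumberField M] [Algebra K M] (φ : A →ₐ[K] M)
      (P : ℙ K (Fin (N * (n + 1)) → K)), P ∉ E → Function.Surjective φ →
      RingHom.ker φ = Ideal.span {mem (Vn (K := K) e n) P.rep} →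
      φ (algebraMap K[X] A p) = 0 → logHeight P.rep ≤ C := by
  classical
  set J : Ideal A := Ideal.span {algebraMap K[X] A p} with hJ
  -- the quotient is artinian
  have hfin1 : Module.Finite K (A ⧸ J) := by
    obtain ⟨e⟩ := Pool.Agent.N803.PX.exists_equiv (K := K) (A := A) p
    haveI h0 : Module.Finite K (K[X] ⧸ Ideal.span {p}) := (AdjoinRoot.powerBasis hp).finite
    exact Module.Finite.equiv e.symm
  have hart : IsArtinianRing (A ⧸ J) := IsArtinianRing.of_finite K (A ⧸ J)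
  have hfin2 : {I : Ideal A | I.IsMaximal ∧ J ≤ I}.Finite := by
    have h3 := (IsArtinianRing.setOfPred_isMaximal_finite (A ⧸ J)).image (fun I => I.comap (Ideal.Quotient.mk J))
    refine h3.subset ?_
    rintro I ⟨hI, hJI⟩
    refine ⟨I.map (Ideal.Quotient.mk J), ?_, ?_⟩
    · have h4 := Ideal.map_eq_top_or_isMaximal_of_surjective (Ideal.Quotient.mk J)
        Ideal.Quotient.mk_surjective hI
      rcases h4 with h4 | h4
      · exfalso
        have h5 : (I.map (Ideal.Quotient.mk J)).comap (Ideal.Quotient.mk J) = I := by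
          rw [Ideal.comap_map_of_surjective _ Ideal.Quotient.mk_surjective, ← RingHom.ker_eq_comap_bot,
            Ideal.mk_ker, sup_eq_left.2 hJI]
        rw [h4, Ideal.comap_top] at h5
        exact hI.ne_top h5.symm
      · exact h4
    · show (I.map (Ideal.Quotient.mk J)).comap (Ideal.Quotient.mk J) = I
      rw [Ideal.comap_map_of_surjective _ Ideal.Quotient.mk_surjective, ← RingHom.ker_eq_comap_bot,
        Ideal.mk_ker, sup_eq_left.2 hJI]
  -- the members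
  set T : Set (ℙ K (Fin (N * (n + 1)) → K)) := {P | P ∉ E ∧
    (Ideal.span {mem (Vn (K := K) e n) P.rep}) ∈ {I : Ideal A | I.IsMaximal ∧ J ≤ I}} with hT
  have hTfin : T.Finite := by
    refine Set.Finite.of_finite_image (f := fun P => Ideal.span {mem (Vn (K := K) e n) P.rep})
      (hfin2.subset ?_) ?_
    · rintro _ ⟨P, hP, rfl⟩
      exact hP.2
    · intro P hP P' _ h
      exact hE.inj P P' hP.1 h
  obtain ⟨C, hC⟩ := (hTfin.image fun P => logHeight P.rep).bddAbove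
  refine ⟨C, fun M _ _ _ φ P hP hφ hk h0 => hC ⟨P, ⟨hP, ?_, ?_⟩, rfl⟩⟩
  · rw [← hk]
    exact RingHom.ker_isMaximal_of_surjective φ.toRingHom hφ
  · rw [← hk, hJ, Ideal.span_singleton_le_iff_mem]
    exact h0

/-- `F` is a root of a monic polynomial whose coefficients have degree at most `m` -/
def IntDeg (m : ℕ) (F : A) : Prop :=
  ∃ Q : K[X][X], Q.Monic ∧ (∀ i, (Q.coeff i).natDegree ≤ m) ∧ aeval F Q = 0

/-- the height of a value -/
theorem ht_int {m : ℕ} {F : A} (hF : IntDeg (K := K) m F) : ∃ C : ℝ, 0 ≤ C ∧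
    ∀ (M : Type) [Field M] [NumberField M] [Algebra K M] (φ : A →ₐ[K] M),
      logHeight₁ (φ F) ≤ m * logHeight₁ (φ (algebraMap K[X] A X)) + finrank ℚ M * C := by
  obtain ⟨Q, hQ, hm, h0⟩ := hF
  obtain ⟨C, hC0, hC⟩ := Pool.Agent.N751.LS.ht_rel Q.natDegree m (fun i => Q.coeff i) hm
  refine ⟨C, hC0, fun M _ _ _ φ => hC M (φ (algebraMap K[X] A X)) (φ F) ?_ ?_⟩
  · rw [hQ.coeff_natDegree, map_one]
    exact one_ne_zero
  · have h1 : ∀ q : K[X], aeval (φ (algebraMap K[X] A X)) q = φ (algebraMap K[X] A q) := by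
      intro q
      exact (Pool.Agent.N776.CV.map_poly φ q).symm
    simp only [h1]
    have h2 : φ (aeval F Q) = 0 := by rw [h0, map_zero]
    rw [aeval_eq_sum_range, map_sum] at h2
    rw [← h2]
    refine Finset.sum_congr rfl fun i _ => ?_
    rw [Algebra.smul_def, map_mul, map_pow]

/-- `F / G` has many poles at the members outside the exceptional set -/
theorem many_polesC {N : ℕ} {e : Basis (Fin N) K[X] A} {n : ℕ}
    {E : Set (ℙ K (Fin (N * (n + 1)) → K))} (hE : ExcC e n E) {F G : A} (hG : G ≠ 0)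
    (hpole : ∃ (L : Type) (_ : Field L) (_ : NumberField L) (_ : Algebra K L) (ψ : A →ₐ[K] L),
      Function.Surjective ψ ∧ finrank K L ≤ 2 * n + 1 ∧ ψ G = 0 ∧ ψ F ≠ 0) :
    ∃ C : ℝ, 0 ≤ C ∧ ∀ (M : Type) [Field M] [NumberField M] [Algebra K M] (φ : A →ₐ[K] M)
      (P : ℙ K (Fin (N * (n + 1)) → K)), P ∉ E → Function.Surjective φ →
      RingHom.ker φ = Ideal.span {mem (Vn (K := K) e n) P.rep} → C < logHeight P.rep →
      φ G ≠ 0 ∧ ∃ W : Finset (HeightOneSpectrum (𝓞 M)),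
        (∀ w ∈ W, 1 < w.valuation M (φ F / φ G)) ∧
        1 / 2 * logHeight P.rep ≤ ∑ w ∈ W, lN w + C := by
  classical
  obtain ⟨L, i1, i2, i3, ψ, hψ, hL, hψG, hψF⟩ := hpole
  have hnoeth : IsNoetherianRing A := by
    have : IsNoetherian K[X] A := inferInstance
    exact isNoetherian_of_tower K[X] this
  obtain ⟨s, hs⟩ := (isNoetherianRing_iff_ideal_fg A).1 hnoeth (RingHom.ker ψ)
  obtain ⟨u, g, hg⟩ : ∃ (u : ℕ) (g : Fin u → A), Set.range g = (s : Set A) :=
    ⟨s.card, fun i => (s.equivFin.symm i : A), by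
      ext a
      simp only [Set.mem_range, Finset.mem_coe]
      constructor
      · rintro ⟨i, rfl⟩
        exact (s.equivFin.symm i).2
      · intro ha
        exact ⟨s.equivFin ⟨a, ha⟩, by simp⟩⟩
  have hker : RingHom.ker ψ = Ideal.span (Set.range g) := by
    rw [hg]; exact hs.symm
  have hmax : (Ideal.span (Set.range g)).IsMaximal := by
    rw [← hker]
    exact RingHom.ker_isMaximal_of_surjective ψ.toRingHom hψ
  obtain ⟨d, hd, hval⟩ := Pool.Agent.N751.LS.pole_val (K := K) g hmax (F := F) (G := G)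
    (by rw [← hker]; exact hψF) (by rw [← hker]; exact hψG)
  obtain ⟨C1, hC1⟩ := hE.zeros u g hmax ⟨L, i1, i2, i3, ψ, hψ, hker, hL⟩ {d} (1 / 2) (by norm_num)
  -- a polynomial which is a multiple of `G`
  obtain ⟨p, hp0, hpG⟩ : ∃ p : K[X], p ≠ 0 ∧ algebraMap K[X] A p ∈ Ideal.span {G} := by
    have h1 := Ideal.comap_ne_bot_of_integral_mem (R := K[X]) (I := Ideal.span {G}) hG
      (Ideal.mem_span_singleton_self G) (Algebra.IsIntegral.isIntegral G)
    obtain ⟨p, hp, hp0⟩ := Submodule.exists_mem_ne_zero_of_ne_bot h1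
    exact ⟨p, hp0, hp⟩
  obtain ⟨C2, hC2⟩ := bounded_of_root hE p hp0
  have hpφ : ∀ (M : Type) [Field M] [NumberField M] [Algebra K M] (φ : A →ₐ[K] M), φ G = 0 →
      φ (algebraMap K[X] A p) = 0 := by
    intro M _ _ _ φ h
    obtain ⟨b, hb⟩ := Ideal.mem_span_singleton'.1 hpG
    rw [← hb, map_mul, h, mul_zero]
  refine ⟨max (max C1 C2) 0, le_max_right _ _, fun M _ _ _ φ P hP hφ hk hht => ?_⟩
  have hlt2 : C2 < logHeight P.rep :=
    ((le_max_right _ _).trans (le_max_left _ _)).trans_lt hht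
  have hG0 : φ G ≠ 0 := fun h =>
    absurd (hC2 M φ P hP hφ hk (hpφ M φ h)) (not_le.2 hlt2)
  refine ⟨hG0, ?_⟩
  have hne : RingHom.ker φ ≠ Ideal.span (Set.range g) := by
    intro h
    apply hG0
    have h1 : G ∈ RingHom.ker φ := by
      rw [h, ← hker]
      exact hψG
    exact h1
  obtain ⟨W, hW, hsum⟩ := hC1 M φ P hP hφ hk hne
  refine ⟨W, fun w hw => ?_, ?_⟩
  · obtain ⟨h1, h2, h3⟩ := hW w hw
    obtain ⟨h4, h5⟩ := hval M φ w (h1 d (Finset.mem_singleton_self d) hd) h2 h3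
    rw [map_div₀, h5, one_div]
    have h6 : 0 < w.valuation M (φ G) := by
      rw [zero_lt_iff]
      exact (Valuation.ne_zero_iff _).2 hG0
    exact (one_lt_inv₀ h6).2 h4
  · have h1 : (1 : ℝ) ≤ finrank K (A ⧸ Ideal.span (Set.range g)) := by
      have h2 : finrank K L = finrank K (A ⧸ Ideal.span (Set.range g)) :=
        Pool.Agent.N297.CV.MainC.finrank_eq' ψ hψ hker
      have hfd : FiniteDimensional K L := Module.Finite.of_restrictScalars_finite ℚ K L
      rw [← h2]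
      exact_mod_cast (Module.finrank_pos : 0 < finrank K L)
    have h2 : 0 ≤ logHeight P.rep := logHeight_nonneg _
    have h3 : C1 ≤ max (max C1 C2) 0 := (le_max_left _ _).trans (le_max_left _ _)
    nlinarith

/-- **the strong alternative at almost all closed points of the linear systems `V_n`** -/
theorem strong_members (N m d g : ℕ) (hg : 0 < g) (κ : ℝ) (hκ : 0 ≤ κ) :
    ∃ c₁ : ℝ, 0 < c₁ ∧ ∃ c₂ : ℕ, ∀ (K A : Type) [Field K] [NumberField K] [CommRing A] [IsDomain A]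
      [Algebra K A] [Algebra K[X] A] [IsScalarTower K K[X] A] [Module.Finite K[X] A]
      [FaithfulSMul K[X] A] (e : Basis (Fin N) K[X] A) (n : ℕ)
      (E : Set (ℙ K (Fin (N * (n + 1)) → K))), ExcC e n E → ∀ F G : A, G ≠ 0 →
      IntDeg (K := K) m F → IntDeg (K := K) m G →
      (∃ (L : Type) (_ : Field L) (_ : NumberField L) (_ : Algebra K L) (ψ : A →ₐ[K] L),
        Function.Surjective ψ ∧ finrank K L ≤ 2 * n + 1 ∧ ψ G = 0 ∧ ψ F ≠ 0) → ∃ C₀ : ℝ,
      ∀ (M : Type) [Field M] [NumberField M] [Algebra K M] (φ : A →ₐ[K] M)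
        (P : ℙ K (Fin (N * (n + 1)) → K)), P ∉ E → Function.Surjective φ →
        RingHom.ker φ = Ideal.span {mem (Vn (K := K) e n) P.rep} → C₀ ≤ logHeight P.rep →
        φ G ≠ 0 ∧ StrongAt c₁ c₂ d g κ (φ F / φ G) := by
  obtain ⟨c₁, hc₁, c₂, h⟩ := Pool.Agent.N751.LS.strong_of_poles d g hg κ (4 * (2 * m * N + 1)) hκ
    (by positivity)
  refine ⟨c₁, hc₁, c₂, fun K A _ _ _ _ _ _ _ _ _ e n E hE F G hG hF1 hG1 hpole => ?_⟩
  obtain ⟨C1, hC1, hpol⟩ := many_polesC hE hG hpole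
  obtain ⟨CF, hCF0, hCF⟩ := ht_int hF1
  obtain ⟨CG, hCG0, hCG⟩ := ht_int hG1
  obtain ⟨C2, hC2⟩ := hE.ht
  obtain ⟨D, hD⟩ := hE.deg
  refine ⟨max (4 * C1) (2 * m * C2 + (finrank ℚ K * D : ℕ) * (CF + CG)) + 1, ?_⟩
  intro M _ _ _ φ P hP hφ hk hht
  have hb1 : 4 * C1 < logHeight P.rep := by
    have := le_max_left (4 * C1) (2 * m * C2 + (finrank ℚ K * D : ℕ) * (CF + CG))
    linarith
  have hb2 : 2 * m * C2 + (finrank ℚ K * D : ℕ) * (CF + CG) < logHeight P.rep := by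
    have := le_max_right (4 * C1) (2 * m * C2 + (finrank ℚ K * D : ℕ) * (CF + CG))
    linarith
  obtain ⟨hG0, W, hW, hsum⟩ := hpol M φ P hP hφ hk (by linarith)
  refine ⟨hG0, h M _ W hW ?_⟩
  have h0 : 0 ≤ logHeight P.rep := logHeight_nonneg _
  have hdegM : finrank ℚ M ≤ finrank ℚ K * D := by
    have h1 : finrank ℚ K * finrank K M = finrank ℚ M := finrank_mul_finrank ℚ K M
    have h2 : finrank K M = finrank K (A ⧸ Ideal.span {mem (Vn (K := K) e n) P.rep}) :=
      Pool.Agent.N297.CV.MainC.finrank_eq' φ hφ hk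
    rw [← h1, h2]
    exact Nat.mul_le_mul_left _ (hD P hP)
  have hdegM' : (finrank ℚ M : ℝ) ≤ (finrank ℚ K * D : ℕ) := by exact_mod_cast hdegM
  have h1 : logHeight₁ (φ F / φ G) ≤ logHeight₁ (φ F) + logHeight₁ (φ G) := by
    rw [div_eq_mul_inv]
    have := Height.logHeight₁_mul_le (φ F) (φ G)⁻¹
    rwa [Height.logHeight₁_inv] at this
  have h2 := hCF M φ
  have h3 := hCG M φ
  have h4 := hC2 M φ P hφ hk
  have h5 : (finrank ℚ M : ℝ) * CF ≤ (finrank ℚ K * D : ℕ) * CF :=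
    mul_le_mul_of_nonneg_right hdegM' hCF0
  have h6 : (finrank ℚ M : ℝ) * CG ≤ (finrank ℚ K * D : ℕ) * CG :=
    mul_le_mul_of_nonneg_right hdegM' hCG0
  have h7 : (m : ℝ) * logHeight₁ (φ (algebraMap K[X] A X)) ≤ m * (N * logHeight P.rep + C2) :=
    mul_le_mul_of_nonneg_left h4 (Nat.cast_nonneg _)
  have h8 : logHeight₁ (φ F / φ G) ≤ (2 * m * N + 1) * logHeight P.rep := by
    nlinarith
  have h9 : 1 / 4 * logHeight P.rep ≤ ∑ w ∈ W, lN w := by linarith
  calc logHeight₁ (φ F / φ G) ≤ (2 * m * N + 1) * logHeight P.rep := h8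
    _ = 4 * (2 * m * N + 1) * (1 / 4 * logHeight P.rep) := by ring
    _ ≤ 4 * (2 * m * N + 1) * ∑ w ∈ W, lN w := mul_le_mul_of_nonneg_left h9 (by positivity)

end

end Pool.Agent.J6H73.SB
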