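import Pool.Agent.J6H73.SB.Mem

/-!
# The number of members of a linear system: lower bound
-/

set_option autoImplicit false

namespace Pool.Agent.J6H73.SB

open NumberField IsDedekindDomain Module Polynomial Height Pool.Agent.N753.DR
open scoped LinearAlgebra.Projectivization

theorem norm_le_sz (K : Type) [Field K] [NumberField K] : ∃ C : ℝ, 1 ≤ C ∧
    ∀ (z : 𝓞 K) (φ : K →+* ℂ), ‖φ (z : K)‖ ≤ C * sz z := by
  classical
  refine ⟨∑ φ : K →+* ℂ, ∑ j, ‖φ (RingOfIntegers.basis K j : K)‖ + 1, ?_, ?_⟩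
  · have : 0 ≤ ∑ φ : K →+* ℂ, ∑ j, ‖φ (RingOfIntegers.basis K j : K)‖ :=
      Finset.sum_nonneg fun φ _ => Finset.sum_nonneg fun j _ => norm_nonneg _
    linarith
  intro z φ
  have h1 : ∑ j, ‖φ (RingOfIntegers.basis K j : K)‖ ≤
      ∑ φ : K →+* ℂ, ∑ j, ‖φ (RingOfIntegers.basis K j : K)‖ :=
    Finset.single_le_sum (f := fun φ : K →+* ℂ => ∑ j, ‖φ (RingOfIntegers.basis K j : K)‖)
      (fun φ _ => Finset.sum_nonneg fun j _ => norm_nonneg _) (Finset.mem_univ φ)
  have h2 : φ (z : K) = ∑ j, ((RingOfIntegers.basis K).repr z j : ℂ) *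
      φ (RingOfIntegers.basis K j : K) := by
    conv_lhs => rw [← (RingOfIntegers.basis K).sum_repr z]
    simp
  rw [h2]
  refine (norm_sum_le _ _).trans ?_
  have h3 : ∀ j, ‖((RingOfIntegers.basis K).repr z j : ℂ) * φ (RingOfIntegers.basis K j : K)‖ ≤
      sz z * ‖φ (RingOfIntegers.basis K j : K)‖ := by
    intro j
    rw [norm_mul]
    refine mul_le_mul_of_nonneg_right ?_ (norm_nonneg _)
    rw [Complex.norm_intCast]
    have h4 : ((RingOfIntegers.basis K).repr z j).natAbs ≤ sz z :=
      Finset.le_sup (f := fun i => ((RingOfIntegers.basis K).repr z i).natAbs) (Finset.mem_univ j)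
    have h5 : |((RingOfIntegers.basis K).repr z j : ℝ)| =
        (((RingOfIntegers.basis K).repr z j).natAbs : ℝ) := by
      rw [Nat.cast_natAbs, Int.cast_abs]
    rw [h5]
    exact_mod_cast h4
  refine (Finset.sum_le_sum fun j _ => h3 j).trans ?_
  rw [← Finset.mul_sum, mul_comm]
  refine mul_le_mul_of_nonneg_right ?_ (Nat.cast_nonneg _)
  linarith

/-- the height of the vector of the coefficients of a minimal polynomial -/
theorem ht_coeff (K : Type) [Field K] [NumberField K] (r : ℕ) (hr : 1 ≤ r) : ∃ C : ℝ,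
    ∀ (U : ℝ) (p : K[X]), 0 ≤ U → AtH r U p →
      logHeight (fun i : Fin (r + 1) => p.coeff i) ≤ U + C := by
  obtain ⟨Bad, C0, hC0, hR⟩ := Pool.Agent.N459.DR.t K r hr
  obtain ⟨C1, hC1, hN⟩ := norm_le_sz K
  set n : ℝ := (finrank ℚ K : ℝ) with hn
  have hn0 : 0 < n := by
    rw [hn]; exact_mod_cast (Module.finrank_pos : 0 < finrank ℚ K)
  refine ⟨n * Real.log (C1 * max C0 1), ?_⟩
  rintro U p hU ⟨M, _, _, _, x, hM, hx, rfl, hht⟩
  obtain ⟨c, l, hl, hcl, -, hsz⟩ := hR M x hM hx
  have hC01 : 1 ≤ max C0 1 := le_max_right _ _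
  have hexp : 1 ≤ Real.exp (U / n) := Real.one_le_exp (by positivity)
  have hxint : IsIntegral K x := by
    have : FiniteDimensional K M := Module.Finite.of_restrictScalars_finite ℚ K M
    exact IsIntegral.of_finite K x
  have hc0 : c ≠ 0 := by
    intro h
    have h1 := hcl (Fin.last r)
    have h2 : (minpoly K x).coeff (Fin.last r : ℕ) = 1 := by
      rw [Fin.val_last]
      have := (minpoly.monic hxint).coeff_natDegree
      rwa [hx] at this
    rw [h2, mul_one, h] at h1
    exact hl (by simpa using h1.symm)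
  have h1 := Pool.Agent.N31.FR.logHeight_le hc0 (R := C1 * max C0 1 * Real.exp (U / n))
    (one_le_mul_of_one_le_of_one_le (one_le_mul_of_one_le_of_one_le hC1 hC01) hexp) (by
      intro i φ
      refine (hN (c i) φ).trans ?_
      rw [mul_assoc]
      refine mul_le_mul_of_nonneg_left ?_ (by linarith)
      refine (hsz i).trans ?_
      refine mul_le_mul (le_max_left _ _) ?_ (Real.exp_pos _).le (by positivity)
      exact Real.exp_le_exp.2 (div_le_div_of_nonneg_right hht hn0.le))
  have h2 : logHeight (fun i : Fin (r + 1) => (c i : K)) =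
      logHeight (fun i : Fin (r + 1) => (minpoly K x).coeff i) := by
    have h3 : (fun i : Fin (r + 1) => (c i : K)) = l • fun i : Fin (r + 1) => (minpoly K x).coeff i := by
      funext i
      rw [hcl i]; rfl
    rw [h3, logHeight_smul_eq_logHeight _ hl]
  rw [← h2]
  refine h1.trans (le_of_eq ?_)
  rw [Real.log_mul (by positivity) (Real.exp_pos _).ne', Real.log_exp, ← hn]
  field_simp
  ring

/-- the number of points of projective space -/
theorem tot (K : Type) [Field K] [NumberField K] (m : ℕ) (hm : 2 ≤ m) : ∃ c U₀ : ℝ, 0 < c ∧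
    ∀ U : ℝ, U₀ ≤ U → {P : ℙ K (Fin m → K) | logHeight P.rep ≤ U}.Finite →
      c * Real.exp (m * U) ≤ ({P : ℙ K (Fin m → K) | logHeight P.rep ≤ U}.ncard : ℝ) := by
  classical
  obtain ⟨r, rfl⟩ : ∃ r, m = r + 1 := ⟨m - 1, by omega⟩
  have hr : 1 ≤ r := by omega
  obtain ⟨c, U₀, hc, htot⟩ := Pool.Agent.N31.FR.t K r hr
  obtain ⟨C, hC⟩ := ht_coeff K r hr
  refine ⟨c * Real.exp (-((r + 1) * C)), max U₀ 0 + C, by positivity, fun U hU hfin => ?_⟩
  have hU1 : U₀ ≤ U - C := by
    have := le_max_left U₀ 0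
    linarith
  have hU2 : 0 ≤ U - C := by
    have := le_max_right U₀ 0
    linarith
  obtain ⟨T, hT, hcard⟩ := htot (U - C) hU1
  have hmon : ∀ p ∈ T, p.coeff r = 1 := by
    intro p hp
    obtain ⟨M, _, _, _, x, hM, hx, rfl, -⟩ := hT p hp
    have hxint : IsIntegral K x := by
      have : FiniteDimensional K M := Module.Finite.of_restrictScalars_finite ℚ K M
      exact IsIntegral.of_finite K x
    have := (minpoly.monic hxint).coeff_natDegree
    rwa [hx] at this
  have hdeg : ∀ p ∈ T, p.natDegree = r := by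
    intro p hp
    obtain ⟨M, _, _, _, x, hM, hx, rfl, -⟩ := hT p hp
    exact hx
  have hne : ∀ p ∈ T, (fun i : Fin (r + 1) => p.coeff i) ≠ 0 := by
    intro p hp h
    have h1 := congrFun h (Fin.last r)
    simp only [Fin.val_last, Pi.zero_apply] at h1
    rw [hmon p hp] at h1
    exact one_ne_zero h1
  let F : K[X] → ℙ K (Fin (r + 1) → K) := fun p =>
    if h : (fun i : Fin (r + 1) => p.coeff i) ≠ 0 then Projectivization.mk K _ h
    else Projectivization.mk K (fun _ : Fin (r + 1) => (1 : K)) (by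
      intro h; have := congrFun h 0; simp at this)
  have hF : ∀ p ∈ T, ∃ h : (fun i : Fin (r + 1) => p.coeff i) ≠ 0,
      F p = Projectivization.mk K _ h := fun p hp => ⟨hne p hp, dif_pos (hne p hp)⟩
  have hinj : Set.InjOn F T := by
    intro p hp q hq hpq
    obtain ⟨h1, e1⟩ := hF p hp
    obtain ⟨h2, e2⟩ := hF q hq
    rw [e1, e2, Projectivization.mk_eq_mk_iff'] at hpq
    obtain ⟨a, ha⟩ := hpq
    have h3 := congrFun ha (Fin.last r)
    simp only [Pi.smul_apply, Fin.val_last, smul_eq_mul] at h3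
    rw [hmon p hp, hmon q hq, mul_one] at h3
    ext i
    by_cases hi : i < r + 1
    · have h4 := congrFun ha ⟨i, hi⟩
      simp only [Pi.smul_apply, smul_eq_mul, h3, one_mul] at h4
      exact h4.symm
    · rw [coeff_eq_zero_of_natDegree_lt (by rw [hdeg p hp]; omega),
        coeff_eq_zero_of_natDegree_lt (by rw [hdeg q hq]; omega)]
  have hmaps : ∀ p ∈ T, F p ∈ {P : ℙ K (Fin (r + 1) → K) | logHeight P.rep ≤ U} := by
    intro p hp
    obtain ⟨h1, e1⟩ := hF p hp
    show logHeight (F p).rep ≤ U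
    obtain ⟨a, ha⟩ := Projectivization.exists_smul_eq_mk_rep K _ h1
    rw [e1, ← ha]
    have h2 := hC (U - C) p hU2 (hT p hp)
    have h3 : logHeight (a • fun i : Fin (r + 1) => p.coeff i) =
        logHeight (fun i : Fin (r + 1) => p.coeff i) := by
      have := logHeight_smul_eq_logHeight (fun i : Fin (r + 1) => p.coeff i) a.ne_zero
      exact this
    rw [h3]
    linarith
  have hle : (T.card : ℝ) ≤ ({P : ℙ K (Fin (r + 1) → K) | logHeight P.rep ≤ U}.ncard : ℝ) := by
    have h1 := Set.ncard_le_ncard_of_injOn (s := (T : Set K[X])) F (fun p hp => hmaps p hp) hinj hfin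
    rw [Set.ncard_coe_finset] at h1
    exact_mod_cast h1
  refine le_trans (le_of_eq ?_) (hcard.trans hle)
  rw [mul_assoc, ← Real.exp_add]
  congr 2
  push_cast
  ring

end Pool.Agent.J6H73.SB
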