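import Pool.Agent.J6H73.SB.Count
import Pool.Agent.N394.CV.TypB

/-!
# CV/SMALLB: the part of small primes with double zeros is rarely large
-/

set_option autoImplicit false
set_option linter.unusedSectionVars false

namespace Pool.Agent.J6H73.SB

open NumberField IsDedekindDomain Module Pool.Agent.N753.DR Pool.Agent.N97.DR.Core
open Pool.Agent.N340.DR (dcount crt pow_rep descend tau_bound sum_bound)
open Pool.Agent.N262.DR (sz_sub sz_nat sz_le_iff Bx_card)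

section

variable {K L : Type} [Field K] [NumberField K] [Field L] [NumberField L] [Algebra K L]

/-- powerful numbers -/
def Powf (q : ℕ) : Prop := q ≠ 0 ∧ ∀ p ∈ q.primeFactors, 2 ≤ q.factorization p

/-- the points with the property at all primes dividing `q` -/
def Sq (Bad : Finset (HeightOneSpectrum (𝓞 K))) {m : ℕ} (β : Fin m → 𝓞 L) (B q : ℕ) :
    Set (Fin m → 𝓞 K) :=
  {c ∈ Bx K m B | ∀ p ∈ q.primeFactors, Pr Bad β p (q.factorization p) c}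

theorem sz_zero : sz (0 : 𝓞 K) = 0 := by
  apply Nat.eq_zero_of_le_zero
  rw [sz_le_iff]
  intro i; simp

theorem sz_single {m : ℕ} (i0 j : Fin m) (a : ℕ) :
    sz ((Pi.single i0 (a : 𝓞 K) : Fin m → 𝓞 K) j) ≤ a * sz (1 : 𝓞 K) := by
  by_cases h0 : j = i0
  · subst h0
    rw [Pi.single_eq_same]
    exact sz_nat a
  · rw [Pi.single_eq_of_ne h0, sz_zero]
    exact Nat.zero_le _

theorem Sq_count {Bad : Finset (HeightOneSpectrum (𝓞 K))} {m : ℕ} {β : Fin m → 𝓞 L}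
    {i0 i1 : Fin m} (hG : ∀ v ∉ Bad, Good (L := L) β i0 i1 v) {B q : ℕ} (hq : q ≠ 0)
    (hqB : q ≤ B) :
    (Sq Bad β B q).ncard * (q * q) ≤ (2 * finrank ℚ L ^ 2) ^ q.primeFactors.card * q *
      (Bx K m ((1 + 2 * sz (1 : 𝓞 K)) * B)).ncard := by
  classical
  have hSf : (Sq Bad β B q).Finite := (Bx_finite _ _).subset fun c hc => hc.1
  have hBf := Bx_finite (K := K) m ((1 + 2 * sz (1 : 𝓞 K)) * B)
  rw [Set.ncard_eq_toFinset_card _ hSf, Set.ncard_eq_toFinset_card _ hBf]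
  have hD : q * q = (Finset.range q ×ˢ Finset.range q).card := by
    rw [Finset.card_product, Finset.card_range]
  rw [hD]
  refine dcount hSf.toFinset hBf.toFinset (Finset.range q ×ˢ Finset.range q)
    (fun x => tr i0 i1 x) _ ?_ ?_
  · intro c hc x hx
    rw [Set.Finite.mem_toFinset] at hc ⊢
    rw [Finset.mem_product, Finset.mem_range, Finset.mem_range] at hx
    intro j
    have h1 := hc.1 j
    have e : (c - tr (K := K) i0 i1 x) j = (c j - (Pi.single i0 (x.1 : 𝓞 K) : Fin m → 𝓞 K) j) -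
        (Pi.single i1 (x.2 : 𝓞 K) : Fin m → 𝓞 K) j := by
      unfold tr
      rw [Pi.sub_apply, Pi.add_apply]
      ring
    rw [e]
    have h2 := sz_sub (c j - (Pi.single i0 (x.1 : 𝓞 K) : Fin m → 𝓞 K) j)
      ((Pi.single i1 (x.2 : 𝓞 K) : Fin m → 𝓞 K) j)
    have h3 := sz_sub (c j) ((Pi.single i0 (x.1 : 𝓞 K) : Fin m → 𝓞 K) j)
    have h4 := sz_single (K := K) i0 j x.1
    have h5 := sz_single (K := K) i1 j x.2
    have h6 : x.1 * sz (1 : 𝓞 K) ≤ B * sz (1 : 𝓞 K) := Nat.mul_le_mul_right _ (by omega)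
    have h7 : x.2 * sz (1 : 𝓞 K) ≤ B * sz (1 : 𝓞 K) := Nat.mul_le_mul_right _ (by omega)
    calc _ ≤ _ := h2
      _ ≤ B + B * sz (1 : 𝓞 K) + B * sz (1 : 𝓞 K) := by omega
      _ = _ := by ring
  · intro Q _
    have h1 : ((Finset.range q ×ˢ Finset.range q).filter
        fun x => (Q + tr i0 i1 x) ∈ hSf.toFinset).card ≤
        ((Finset.range q ×ˢ Finset.range q).filter fun x => ∀ p ∈ q.primeFactors,
          Pr Bad β p (q.factorization p) (Q + tr i0 i1 x)).card := by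
      refine Finset.card_le_card fun x hx => ?_
      rw [Finset.mem_filter] at hx ⊢
      refine ⟨hx.1, ?_⟩
      have h2 := (Set.Finite.mem_toFinset hSf).1 hx.2
      exact h2.2
    refine h1.trans ?_
    have h3 := crt hq (fun p x => Pr Bad β p (q.factorization p) (Q + tr i0 i1 x))
      (fun p => 2 * finrank ℚ L ^ 2 * p ^ q.factorization p)
      (fun p _ x hx => hx.periodic)
      (fun p hp => prime_count hG Q (Nat.prime_of_mem_primeFactors hp))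
    have h4 : ∏ p ∈ q.primeFactors, 2 * finrank ℚ L ^ 2 * p ^ q.factorization p =
        (2 * finrank ℚ L ^ 2) ^ q.primeFactors.card * q := by
      rw [Finset.prod_mul_distrib, Finset.prod_const]
      congr 1
      exact Nat.prod_factorization_pow_eq_self hq
    rw [← h4]
    convert h3 using 2

theorem Sq_bound {Bad : Finset (HeightOneSpectrum (𝓞 K))} {m : ℕ} {β : Fin m → 𝓞 L}
    {i0 i1 : Fin m} (hG : ∀ v ∉ Bad, Good (L := L) β i0 i1 v) : ∃ C : ℝ, 0 < C ∧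
    ∀ B q : ℕ, q ≠ 0 → q ≤ B → ((Sq Bad β B q).ncard : ℝ) ≤
      C * (B : ℝ) ^ (finrank ℚ K * m) * (q : ℝ) ^ (-(7 / 8) : ℝ) := by
  obtain ⟨C, hC, h⟩ := tau_bound (τ := 2 * finrank ℚ L ^ 2) (by
    have h1 : 0 < finrank ℚ L := finrank_pos
    have h2 : 0 < finrank ℚ L ^ 2 := pow_pos h1 2
    omega)
  set s : ℕ := 1 + 2 * sz (1 : 𝓞 K) with hs
  refine ⟨C * (3 * s : ℝ) ^ (finrank ℚ K * m), by positivity, fun B q hq hqB => ?_⟩
  have hq0 : (0 : ℝ) < q := by exact_mod_cast Nat.pos_of_ne_zero hq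
  have hB1 : 1 ≤ B := by omega
  have hB0 : (1 : ℝ) ≤ B := by exact_mod_cast hB1
  have h1 := Sq_count (m := m) hG hq hqB
  have h2 := Bx_card (K := K) m (s * B)
  have h3 : (((Sq Bad β B q).ncard : ℕ) : ℝ) * (q * q) ≤
      ((2 * finrank ℚ L ^ 2 : ℕ) : ℝ) ^ q.primeFactors.card * q *
        ((2 * (s * B) + 1 : ℕ) : ℝ) ^ (finrank ℚ K * m) := by
    have := h1.trans (Nat.mul_le_mul_left _ h2)
    exact_mod_cast this
  have h4 : ((2 * (s * B) + 1 : ℕ) : ℝ) ^ (finrank ℚ K * m) ≤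
      (3 * s : ℝ) ^ (finrank ℚ K * m) * (B : ℝ) ^ (finrank ℚ K * m) := by
    rw [← mul_pow]
    refine pow_le_pow_left₀ (by positivity) ?_ _
    push_cast
    have h5 : (1 : ℝ) ≤ s := by
      rw [hs]; push_cast
      have : (0 : ℝ) ≤ sz (1 : 𝓞 K) := Nat.cast_nonneg _
      linarith
    nlinarith
  have h5 := h q hq
  have h6 : (((Sq Bad β B q).ncard : ℕ) : ℝ) * (q * q) ≤
      (C * (q : ℝ) ^ (1 / 8 : ℝ)) * q *
        ((3 * s : ℝ) ^ (finrank ℚ K * m) * (B : ℝ) ^ (finrank ℚ K * m)) := by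
    refine h3.trans ?_
    gcongr
  have h7 : (q : ℝ) ^ (-(7 / 8) : ℝ) * (q * q) = (q : ℝ) ^ (1 / 8 : ℝ) * q := by
    have e1 : (q : ℝ) * q = (q : ℝ) ^ (2 : ℝ) := by rw [Real.rpow_two, sq]
    have e2 : (q : ℝ) ^ (1 / 8 : ℝ) * q = (q : ℝ) ^ (1 / 8 : ℝ) * (q : ℝ) ^ (1 : ℝ) := by
      rw [Real.rpow_one]
    rw [e1, e2, ← Real.rpow_add hq0, ← Real.rpow_add hq0]
    norm_num
  have h8 : (0 : ℝ) < (q : ℝ) * q := by positivity
  refine le_of_mul_le_mul_right ?_ h8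
  calc _ ≤ _ := h6
    _ = C * (3 * s : ℝ) ^ (finrank ℚ K * m) * (B : ℝ) ^ (finrank ℚ K * m) *
        ((q : ℝ) ^ (1 / 8 : ℝ) * q) := by ring
    _ = _ := by rw [← h7]; ring

/-- the number of the points with the property at some powerful number of size at least `X` -/
theorem union_bound {Bad : Finset (HeightOneSpectrum (𝓞 K))} {m : ℕ} {β : Fin m → 𝓞 L}
    {i0 i1 : Fin m} (hG : ∀ v ∉ Bad, Good (L := L) β i0 i1 v) : ∃ C : ℝ, 0 < C ∧
    ∀ (B : ℕ) (X : ℝ), 1 ≤ X →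
      ({c | ∃ q : ℕ, Powf q ∧ X ≤ q ∧ q ≤ B ∧ c ∈ Sq Bad β B q}.ncard : ℝ) ≤
      C * (B : ℝ) ^ (finrank ℚ K * m) * X ^ (-(1 / 8) : ℝ) := by
  classical
  obtain ⟨C₁, hC₁, h1⟩ := Sq_bound (m := m) (β := β) hG
  obtain ⟨C₂, hC₂, h2⟩ := sum_bound
  refine ⟨C₁ * C₂, by positivity, fun B X hX => ?_⟩
  set Z := (Finset.Icc 1 B ×ˢ Finset.Icc 1 B).filter
    (fun z : ℕ × ℕ => X ≤ ((z.1 ^ 2 * z.2 ^ 3 : ℕ) : ℝ)) with hZ
  set F : ℕ × ℕ → Set (Fin m → 𝓞 K) := fun z =>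
    if z.1 ^ 2 * z.2 ^ 3 ≤ B then Sq Bad β B (z.1 ^ 2 * z.2 ^ 3) else ∅ with hF
  have hsub : {c | ∃ q : ℕ, Powf q ∧ X ≤ q ∧ q ≤ B ∧ c ∈ Sq Bad β B q} ⊆ ⋃ z ∈ Z, F z := by
    rintro c ⟨q, ⟨hq0, hq⟩, hXq, hqB, hc⟩
    obtain ⟨x, y, rfl⟩ := pow_rep hq0 hq
    have hx : x ≠ 0 := by rintro rfl; simp at hq0
    have hy : y ≠ 0 := by rintro rfl; simp at hq0
    have hx1 : x ≤ B := by
      have h3 : x ≤ x ^ 2 * y ^ 3 := by
        calc x ≤ x ^ 2 := Nat.le_self_pow (by norm_num) x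
          _ ≤ x ^ 2 * y ^ 3 := Nat.le_mul_of_pos_right _ (by positivity)
      omega
    have hy1 : y ≤ B := by
      have h3 : y ≤ x ^ 2 * y ^ 3 := by
        calc y ≤ y ^ 3 := Nat.le_self_pow (by norm_num) y
          _ ≤ x ^ 2 * y ^ 3 := Nat.le_mul_of_pos_left _ (by positivity)
      omega
    rw [Set.mem_iUnion₂]
    refine ⟨(x, y), ?_, ?_⟩
    · rw [hZ, Finset.mem_filter, Finset.mem_product, Finset.mem_Icc, Finset.mem_Icc]
      exact ⟨⟨⟨Nat.one_le_iff_ne_zero.2 hx, hx1⟩, ⟨Nat.one_le_iff_ne_zero.2 hy, hy1⟩⟩, hXq⟩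
    · rw [hF]
      simp only
      rw [if_pos hqB]
      exact hc
  have hfinF : ∀ z, (F z).Finite := by
    intro z
    rw [hF]
    simp only
    split_ifs
    · exact (Bx_finite _ _).subset fun c hc => hc.1
    · exact Set.finite_empty
  have hfin : (⋃ z ∈ Z, F z).Finite := Set.Finite.biUnion (Finset.finite_toSet Z) fun z _ => hfinF z
  have h3 : ((⋃ z ∈ Z, F z).ncard : ℝ) ≤ ∑ z ∈ Z, ((F z).ncard : ℝ) := by
    have := Pool.Agent.N787.PC.Gcd.ncard_bU Z F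
    exact_mod_cast this
  have h4 : ∀ z ∈ Z, ((F z).ncard : ℝ) ≤ C₁ * (B : ℝ) ^ (finrank ℚ K * m) *
      (((z.1 ^ 2 * z.2 ^ 3 : ℕ) : ℝ)) ^ (-(7 / 8) : ℝ) := by
    intro z hz
    rw [hZ, Finset.mem_filter, Finset.mem_product, Finset.mem_Icc, Finset.mem_Icc] at hz
    rw [hF]
    simp only
    split_ifs with h
    · refine h1 B _ ?_ h
      have h5 : 0 < z.1 := hz.1.1.1
      have h6 : 0 < z.2 := hz.1.2.1
      positivity
    · rw [Set.ncard_empty, Nat.cast_zero]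
      positivity
  have h5 : ((({c | ∃ q : ℕ, Powf q ∧ X ≤ q ∧ q ≤ B ∧ c ∈ Sq Bad β B q} :
      Set (Fin m → 𝓞 K)).ncard : ℕ) : ℝ) ≤ ((⋃ z ∈ Z, F z).ncard : ℝ) := by
    exact_mod_cast Set.ncard_le_ncard hsub hfin
  calc _ ≤ _ := h5
    _ ≤ _ := h3
    _ ≤ ∑ z ∈ Z, C₁ * (B : ℝ) ^ (finrank ℚ K * m) *
      (((z.1 ^ 2 * z.2 ^ 3 : ℕ) : ℝ)) ^ (-(7 / 8) : ℝ) := Finset.sum_le_sum h4
    _ = C₁ * (B : ℝ) ^ (finrank ℚ K * m) *
      ∑ z ∈ Z, (((z.1 ^ 2 * z.2 ^ 3 : ℕ) : ℝ)) ^ (-(7 / 8) : ℝ) := by rw [Finset.mul_sum]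
    _ ≤ C₁ * (B : ℝ) ^ (finrank ℚ K * m) * (C₂ * X ^ (-(1 / 8) : ℝ)) := by
        gcongr
        exact h2 B X hX
    _ = _ := by ring

end

end Pool.Agent.J6H73.SB
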